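import Pool.Agent.Y925.MS.GK

set_option autoImplicit false

/-!
# Every polynomial is stably equivalent to a polynomial of degree at most one in three groups of variables
-/

namespace Pool.Agent.J4.H18.TT

open MvPolynomial Pool.Agent.Y229.MS

variable {k : Type} [Field k] {n : ℕ}

/-- lists of gates: every entry is a variable times one or times a later entry -/
inductive Gates : List (MvPolynomial (Fin n) k) → Prop
  | nil : Gates []
  | cons (v : Fin n) (q : MvPolynomial (Fin n) k) (L : List (MvPolynomial (Fin n) k)) :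
      (q = 1 ∨ q ∈ L) → Gates L → Gates ((X v * q) :: L)

theorem Gates.append {L L' : List (MvPolynomial (Fin n) k)} (h : Gates L) (h' : Gates L') :
    Gates (L ++ L') := by
  induction h with
  | nil => exact h'
  | cons v q L hq _ ih =>
    refine Gates.cons v q (L ++ L') ?_ ih
    rcases hq with hq | hq
    · exact Or.inl hq
    · exact Or.inr (List.mem_append_left _ hq)

theorem Gates.mulX (v : Fin n) {L : List (MvPolynomial (Fin n) k)} (h : Gates L)
    (L₀ : List (MvPolynomial (Fin n) k)) (h0 : ∀ q ∈ L₀, q = 1 ∨ q ∈ L) :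
    Gates (L₀.map (fun q => X v * q) ++ L) := by
  induction L₀ with
  | nil => exact h
  | cons q L₀ ih =>
    refine Gates.cons v q _ ?_ (ih fun q' hq' => h0 q' (List.mem_cons_of_mem _ hq'))
    rcases h0 q List.mem_cons_self with hq | hq
    · exact Or.inl hq
    · exact Or.inr (List.mem_append_right _ hq)

theorem exists_gates (f : MvPolynomial (Fin n) k) : ∃ L : List (MvPolynomial (Fin n) k),
    Gates L ∧ f ∈ Submodule.span k {q | q = 1 ∨ q ∈ L} := by
  induction f using MvPolynomial.induction_on with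
  | C c =>
    refine ⟨[], Gates.nil, ?_⟩
    have h1 : (C c : MvPolynomial (Fin n) k) = c • 1 := by
      rw [smul_eq_C_mul, mul_one]
    rw [h1]
    exact Submodule.smul_mem _ _ (Submodule.subset_span (Or.inl rfl))
  | add p q hp hq =>
    obtain ⟨L, hL, h1⟩ := hp
    obtain ⟨L', hL', h2⟩ := hq
    refine ⟨L ++ L', hL.append hL', Submodule.add_mem _ ?_ ?_⟩
    · refine Submodule.span_mono ?_ h1
      rintro q (h | h)
      · exact Or.inl h
      · exact Or.inr (List.mem_append_left _ h)
    · refine Submodule.span_mono ?_ h2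
      rintro q (h | h)
      · exact Or.inl h
      · exact Or.inr (List.mem_append_right _ h)
  | mul_X p v hp =>
    obtain ⟨L, hL, h1⟩ := hp
    refine ⟨(1 :: L).map (fun q => X v * q) ++ L, hL.mulX v (1 :: L) (by simp), ?_⟩
    have h2 : ∀ q ∈ Submodule.span k {q | q = 1 ∨ q ∈ L}, X v * q ∈ Submodule.span k
        {q | q = 1 ∨ q ∈ (1 :: L).map (fun q => X v * q) ++ L} := by
      intro q hq
      induction hq using Submodule.span_induction with
      | mem q hq =>
        refine Submodule.subset_span (Or.inr (List.mem_append_left _ ?_))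
        refine List.mem_map.2 ⟨q, ?_, rfl⟩
        rcases hq with hq | hq
        · rw [hq]
          exact List.mem_cons_self
        · exact List.mem_cons_of_mem _ hq
      | zero =>
        rw [mul_zero]
        exact Submodule.zero_mem _
      | add q q' _ _ h3 h4 =>
        rw [mul_add]
        exact Submodule.add_mem _ h3 h4
      | smul a q _ h3 =>
        rw [mul_smul_comm]
        exact Submodule.smul_mem _ _ h3
    rw [mul_comm]
    exact h2 p h1

/-- `f = c₀ + ∑ c_i p_i`, where every `p_i` is a variable, or a variable times a later `p_j` -/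
def Rep (f : MvPolynomial (Fin n) k) (κ : ℕ) : Prop :=
  ∃ (c0 : k) (c : Fin κ → k) (p : Fin κ → MvPolynomial (Fin n) k) (v : Fin κ → Fin n)
    (pr : Fin κ → Option (Fin κ)),
    (∀ i, pr i = none → p i = X (v i)) ∧ (∀ i j, pr i = some j → i < j ∧ p i = X (v i) * p j) ∧
    f = C c0 + ∑ i, C (c i) * p i

theorem Gates.index {L : List (MvPolynomial (Fin n) k)} (h : Gates L) :
    ∀ i : Fin L.length, ∃ v : Fin n, L.get i = X v ∨ ∃ j, i < j ∧ L.get i = X v * L.get j := by
  induction h with
  | nil => exact fun i => i.elim0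
  | cons v q L hq _ ih =>
    intro i
    refine Fin.cases ?_ (fun i => ?_) i
    · refine ⟨v, ?_⟩
      rcases hq with hq | hq
      · refine Or.inl ?_
        show X v * q = X v
        rw [hq, mul_one]
      · obtain ⟨j, hj⟩ := List.mem_iff_get.1 hq
        refine Or.inr ⟨j.succ, Fin.succ_pos j, ?_⟩
        show X v * q = X v * L.get j
        rw [hj]
    · obtain ⟨w, h1⟩ := ih i
      refine ⟨w, ?_⟩
      rcases h1 with h1 | ⟨j, h1, h2⟩
      · exact Or.inl h1
      · exact Or.inr ⟨j.succ, Fin.succ_lt_succ_iff.2 h1, h2⟩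

theorem exists_rep (f : MvPolynomial (Fin n) k) : ∃ κ, Rep f κ := by
  classical
  obtain ⟨L, hL, hf⟩ := exists_gates f
  have h1 : {q : MvPolynomial (Fin n) k | q = 1 ∨ q ∈ L} =
      insert 1 (Set.range L.get) := by
    ext q
    simp only [Set.mem_ofPred_eq, Set.mem_insert_iff, Set.mem_range]
    refine or_congr_right ?_
    exact List.mem_iff_get
  rw [h1, Submodule.mem_span_insert] at hf
  obtain ⟨c0, z, hz, hf⟩ := hf
  obtain ⟨c, hc⟩ := (Submodule.mem_span_range_iff_exists_fun k).1 hz
  choose v hv using hL.index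
  refine ⟨L.length, c0, c, L.get, v, fun i =>
    if h : ∃ j, i < j ∧ L.get i = X (v i) * L.get j then some h.choose else none, ?_, ?_, ?_⟩
  · intro i hi
    beta_reduce at hi
    by_cases h : ∃ j, i < j ∧ L.get i = X (v i) * L.get j
    · rw [dif_pos h] at hi
      exact absurd hi (by simp)
    · exact (hv i).resolve_right h
  · intro i j hi
    beta_reduce at hi
    by_cases h : ∃ j, i < j ∧ L.get i = X (v i) * L.get j
    · rw [dif_pos h, Option.some.injEq] at hi
      rw [← hi]
      exact h.choose_spec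
    · rw [dif_neg h] at hi
      exact absurd hi (by simp)
  · rw [hf, ← hc, smul_eq_C_mul, mul_one]
    congr 1
    exact Finset.sum_congr rfl fun i _ => smul_eq_C_mul _ _

theorem Rep.succ (v0 : Fin n) {f : MvPolynomial (Fin n) k} {κ : ℕ} (h : Rep f κ) :
    Rep f (κ + 1) := by
  obtain ⟨c0, c, p, v, pr, h1, h2, h3⟩ := h
  refine ⟨c0, Fin.cons 0 c, Fin.cons (X v0) p, Fin.cons v0 v,
    Fin.cons none fun i => (pr i).map Fin.succ, ?_, ?_, ?_⟩
  · intro i
    refine Fin.cases ?_ (fun i => ?_) i
    · intro _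
      rfl
    · intro hi
      rw [Fin.cons_succ] at hi
      rw [Fin.cons_succ, Fin.cons_succ]
      exact h1 i (Option.map_eq_none_iff.1 hi)
  · intro i j
    refine Fin.cases ?_ (fun i => ?_) i
    · intro hi
      rw [Fin.cons_zero] at hi
      exact absurd hi (by simp)
    · intro hi
      rw [Fin.cons_succ] at hi
      obtain ⟨j', hj', rfl⟩ := Option.map_eq_some_iff.1 hi
      rw [Fin.cons_succ, Fin.cons_succ, Fin.cons_succ]
      exact ⟨Fin.succ_lt_succ_iff.2 (h2 i j' hj').1, (h2 i j' hj').2⟩
  · rw [Fin.sum_univ_succ]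
    simp only [Fin.cons_zero, Fin.cons_succ, map_zero, zero_mul, zero_add]
    exact h3

/-- an elementary substitution -/
noncomputable def el {N : ℕ} (a v b : Fin N) (c : k) :
    MvPolynomial (Fin N) k →ₐ[k] MvPolynomial (Fin N) k :=
  aeval fun i => if i = a then X a + C c * (X v * X b) else X i

theorem el_comp {N : ℕ} {a v b : Fin N} (hv : v ≠ a) (hb : b ≠ a) (c : k) :
    (el a v b c).comp (el a v b (-c)) = AlgHom.id k _ := by
  apply MvPolynomial.algHom_ext
  intro i
  rw [AlgHom.comp_apply, AlgHom.id_apply]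
  unfold el
  rw [aeval_X]
  by_cases h : i = a
  · rw [if_pos h, map_add, map_mul, map_mul, aeval_X, aeval_X, aeval_X, if_pos rfl, if_neg hv,
      if_neg hb, h, algHom_C, map_neg]
    simp only [algebraMap_eq]
    ring
  · rw [if_neg h, aeval_X, if_neg h]

/-- an elementary automorphism -/
noncomputable def elE {N : ℕ} {a v b : Fin N} (hv : v ≠ a) (hb : b ≠ a) :
    MvPolynomial (Fin N) k ≃ₐ[k] MvPolynomial (Fin N) k :=
  AlgEquiv.ofAlgHom (el a v b (-1)) (el a v b 1)
    (by
      have := el_comp (k := k) hv hb (-1)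
      rwa [neg_neg] at this)
    (el_comp hv hb 1)

section
variable (κ : ℕ) (c0 : k) (c : Fin κ → k) (p : Fin κ → MvPolynomial (Fin n) k) (v : Fin κ → Fin n)
  (pr : Fin κ → Option (Fin κ))

/-- the three groups of variables -/
noncomputable def xx (i : Fin n) : MvPolynomial (Fin (n + (κ + κ))) k :=
  X (Fin.castAdd (κ + κ) i)

noncomputable def yy (i : Fin κ) : MvPolynomial (Fin (n + (κ + κ))) k :=
  X (Fin.natAdd n (Fin.castAdd κ i))

noncomputable def zz (i : Fin κ) : MvPolynomial (Fin (n + (κ + κ))) k :=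
  X (Fin.natAdd n (Fin.natAdd κ i))

/-- the gates -/
noncomputable def gg (i : Fin κ) : MvPolynomial (Fin (n + (κ + κ))) k :=
  zz κ i - rename (Fin.castAdd (κ + κ)) (p i)

/-- the bilinear gates -/
noncomputable def hh (i : Fin κ) : MvPolynomial (Fin (n + (κ + κ))) k :=
  zz κ i - xx κ (v i) * ((pr i).elim 1 (zz κ))

/-- the polynomial of degree at most one in the `x`, in the `y` and in the `z` -/
noncomputable def G3 : MvPolynomial (Fin (n + (κ + κ))) k :=
  C c0 + ∑ i, C (c i) * zz κ i + ∑ i, yy κ i * hh κ v pr i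

/-- the intermediate polynomials -/
noncomputable def GM (m : ℕ) : MvPolynomial (Fin (n + (κ + κ))) k :=
  C c0 + ∑ i, C (c i) * zz κ i + ∑ i : Fin κ, yy κ i * (if (i : ℕ) < m then hh κ v pr i else gg κ p i)

end

variable {κ : ℕ} {c0 : k} {c : Fin κ → k} {p : Fin κ → MvPolynomial (Fin n) k} {v : Fin κ → Fin n}
  {pr : Fin κ → Option (Fin κ)}

theorem xx_ne (i : Fin n) (j : Fin κ) :
    Fin.castAdd (κ + κ) i ≠ Fin.natAdd n (Fin.castAdd κ j) := by
  intro h
  have := congrArg Fin.val h
  simp at this
  omega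

theorem zz_ne (i j : Fin κ) :
    Fin.natAdd n (Fin.natAdd κ i) ≠ Fin.natAdd n (Fin.castAdd κ j) := by
  intro h
  have := congrArg Fin.val h
  simp at this
  omega

theorem yy_ne {i j : Fin κ} (hij : i ≠ j) :
    Fin.natAdd n (Fin.castAdd κ i) ≠ Fin.natAdd n (Fin.castAdd κ j) := by
  intro h
  have := congrArg Fin.val h
  simp at this
  exact hij (Fin.ext this)

theorem GM_step (h1 : ∀ i, pr i = none → p i = X (v i))
    (h2 : ∀ i j, pr i = some j → i < j ∧ p i = X (v i) * p j) (m : ℕ) :
    ∃ ψ : MvPolynomial (Fin (n + (κ + κ))) k ≃ₐ[k] MvPolynomial (Fin (n + (κ + κ))) k,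
      ψ (GM κ c0 c p v pr m) = GM κ c0 c p v pr (m + 1) := by
  classical
  by_cases hm : m < κ
  swap
  · refine ⟨AlgEquiv.refl, ?_⟩
    show GM κ c0 c p v pr m = GM κ c0 c p v pr (m + 1)
    unfold GM
    congr 1
    refine Finset.sum_congr rfl fun i _ => ?_
    rw [if_pos (by omega), if_pos (by omega)]
  set i0 : Fin κ := ⟨m, hm⟩ with hi0
  rcases hpr : pr i0 with _ | j
  · refine ⟨AlgEquiv.refl, ?_⟩
    show GM κ c0 c p v pr m = GM κ c0 c p v pr (m + 1)
    unfold GM
    congr 1
    refine Finset.sum_congr rfl fun i _ => ?_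
    by_cases hi : i = i0
    · rw [hi, if_neg (by simp [hi0]), if_pos (by simp [hi0])]
      unfold gg hh
      rw [hpr, h1 i0 hpr, rename_X, Option.elim_none, mul_one]
      rfl
    · have hi' : (i : ℕ) ≠ m := fun h => hi (Fin.ext h)
      by_cases h : (i : ℕ) < m
      · rw [if_pos h, if_pos (by omega)]
      · rw [if_neg h, if_neg (by omega)]
  · obtain ⟨hj, hpj⟩ := h2 i0 j hpr
    have hij : i0 ≠ j := hj.ne
    refine ⟨elE (xx_ne (v i0) j) (yy_ne (n := n) hij), ?_⟩
    have eC : ∀ a : k, elE (k := k) (xx_ne (v i0) j) (yy_ne (n := n) hij) (C a) = C a := fun a =>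
      AlgEquiv.commutes _ a
    have ez : ∀ i, elE (k := k) (xx_ne (v i0) j) (yy_ne (n := n) hij) (zz κ i) = zz κ i := by
      intro i
      show el _ _ _ (-1) (X _) = _
      unfold el
      rw [aeval_X, if_neg (zz_ne i j)]
      rfl
    have ex : ∀ i, elE (k := k) (xx_ne (v i0) j) (yy_ne (n := n) hij) (xx κ i) = xx κ i := by
      intro i
      show el _ _ _ (-1) (X _) = _
      unfold el
      rw [aeval_X, if_neg (xx_ne i j)]
      rfl
    have ey : ∀ i, elE (k := k) (xx_ne (v i0) j) (yy_ne (n := n) hij) (yy κ i) =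
        if i = j then yy κ j - xx κ (v i0) * yy κ i0 else yy κ i := by
      intro i
      show el _ _ _ (-1) (X _) = _
      unfold el
      rw [aeval_X]
      by_cases h : i = j
      · rw [if_pos (by rw [h]), if_pos h, map_neg, map_one]
        unfold yy xx
        ring
      · rw [if_neg (yy_ne h), if_neg h]
        rfl
    have eg : ∀ i, elE (k := k) (xx_ne (v i0) j) (yy_ne (n := n) hij) (gg κ p i) = gg κ p i := by
      intro i
      unfold gg
      rw [map_sub, ez]
      congr 1
      have h3 : ((elE (k := k) (xx_ne (v i0) j) (yy_ne (n := n) hij)) :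
          MvPolynomial (Fin (n + (κ + κ))) k →ₐ[k] MvPolynomial (Fin (n + (κ + κ))) k).comp
            (rename (Fin.castAdd (κ + κ))) = rename (Fin.castAdd (κ + κ)) := by
        apply MvPolynomial.algHom_ext
        intro l
        rw [AlgHom.comp_apply, rename_X]
        exact ex l
      exact DFunLike.congr_fun h3 (p i)
    have eh : ∀ i, elE (k := k) (xx_ne (v i0) j) (yy_ne (n := n) hij) (hh κ v pr i) =
        hh κ v pr i := by
      intro i
      unfold hh
      rw [map_sub, ez, map_mul, ex]
      cases pr i with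
      | none => rw [Option.elim_none, map_one]
      | some l => rw [Option.elim_some, ez]
    have eco : ∀ i : Fin κ, elE (k := k) (xx_ne (v i0) j) (yy_ne (n := n) hij)
        (if (i : ℕ) < m then hh κ v pr i else gg κ p i) =
        (if (i : ℕ) < m then hh κ v pr i else gg κ p i) := by
      intro i
      split_ifs
      · exact eh i
      · exact eg i
    unfold GM
    rw [map_add, map_add, map_sum, map_sum, eC]
    simp only [map_mul, eC, ez, eco, ey]
    congr 1
    have hjm : ¬ (j : ℕ) < m := by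
      have : (i0 : ℕ) < j := hj
      simp only [hi0] at this
      omega
    -- separate the index `j`
    have hs : ∀ i : Fin κ, (if i = j then yy κ j - xx κ (v i0) * yy κ i0 else yy κ i) *
        (if (i : ℕ) < m then hh κ v pr i else gg κ p i) =
        yy κ i * (if (i : ℕ) < m then hh κ v pr i else gg κ p i) -
          (if i = j then xx κ (v i0) * yy κ i0 * gg κ p j else 0) := by
      intro i
      by_cases h : i = j
      · subst h
        rw [if_pos rfl, if_pos rfl, if_neg hjm]
        ring
      · rw [if_neg h, if_neg h, sub_zero]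
    have ht : ∀ i : Fin κ, yy κ i * (if (i : ℕ) < m + 1 then hh κ v pr i else gg κ p i) =
        yy κ i * (if (i : ℕ) < m then hh κ v pr i else gg κ p i) -
          (if i = i0 then xx κ (v i0) * yy κ i0 * gg κ p j else 0) := by
      intro i
      by_cases h : i = i0
      · rw [h, if_pos rfl, if_pos (by simp [hi0]), if_neg (by simp [hi0])]
        unfold gg hh
        rw [hpr, Option.elim_some, hpj, map_mul, rename_X]
        unfold xx
        ring
      · have hi' : (i : ℕ) ≠ m := fun h' => h (Fin.ext h')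
        rw [if_neg h, sub_zero]
        by_cases h' : (i : ℕ) < m
        · rw [if_pos h', if_pos (by omega)]
        · rw [if_neg h', if_neg (by omega)]
    rw [Finset.sum_congr rfl fun i _ => hs i, Finset.sum_congr rfl fun i _ => ht i,
      Finset.sum_sub_distrib, Finset.sum_sub_distrib, Finset.sum_ite_eq' _ j,
      Finset.sum_ite_eq' _ i0, if_pos (Finset.mem_univ _), if_pos (Finset.mem_univ _)]

theorem GM_all (h1 : ∀ i, pr i = none → p i = X (v i))
    (h2 : ∀ i j, pr i = some j → i < j ∧ p i = X (v i) * p j) : ∀ m : ℕ,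
    ∃ ψ : MvPolynomial (Fin (n + (κ + κ))) k ≃ₐ[k] MvPolynomial (Fin (n + (κ + κ))) k,
      ψ (GM κ c0 c p v pr 0) = GM κ c0 c p v pr m
  | 0 => ⟨AlgEquiv.refl, rfl⟩
  | m + 1 => by
    obtain ⟨ψ, hψ⟩ := GM_all h1 h2 m
    obtain ⟨ψ', hψ'⟩ := GM_step (c0 := c0) (c := c) h1 h2 m
    exact ⟨ψ.trans ψ', by rw [AlgEquiv.trans_apply, hψ, hψ']⟩

/-- **Every polynomial is stably equivalent to a polynomial `G3`.** -/
theorem auto (h1 : ∀ i, pr i = none → p i = X (v i))
    (h2 : ∀ i j, pr i = some j → i < j ∧ p i = X (v i) * p j) {f : MvPolynomial (Fin n) k}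
    (hf : f = C c0 + ∑ i, C (c i) * p i) :
    ∃ ψ : MvPolynomial (Fin (n + (κ + κ))) k ≃ₐ[k] MvPolynomial (Fin (n + (κ + κ))) k,
      ψ (stabK f κ) = G3 κ c0 c v pr := by
  obtain ⟨ψ, hψ⟩ := Pool.Agent.Y925.MS.gk k (fun _ : Fin κ => (1 : k)) (fun _ => one_ne_zero) p
    (C c0 + ∑ i, C (c i) * X (Fin.natAdd n i))
  obtain ⟨ψ', hψ'⟩ := GM_all (c0 := c0) (c := c) h1 h2 κ
  refine ⟨ψ.trans ψ', ?_⟩
  have e1 : aeval (Fin.append X fun i => C (1 : k)⁻¹ * p i)
      (C c0 + ∑ i, C (c i) * X (Fin.natAdd n i) : MvPolynomial (Fin (n + κ)) k) = f := by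
    rw [hf, map_add, map_sum, algHom_C]
    congr 1
    refine Finset.sum_congr rfl fun i _ => ?_
    rw [map_mul, algHom_C, aeval_X, Fin.append_right, inv_one, map_one, one_mul]
    rfl
  rw [e1] at hψ
  have e2 : ψ (stabK f κ) = GM κ c0 c p v pr 0 := by
    rw [hψ]
    unfold GM
    congr 1
    · rw [map_add, map_sum, rename_C]
      congr 1
      refine Finset.sum_congr rfl fun i _ => ?_
      rw [map_mul, rename_C, rename_X, Fin.addCases_right]
      rfl
    · refine Finset.sum_congr rfl fun i _ => ?_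
      rw [if_neg (Nat.not_lt_zero _), map_one, one_mul]
      rfl
  rw [AlgEquiv.trans_apply, e2, hψ']
  unfold GM G3
  congr 1
  refine Finset.sum_congr rfl fun i _ => ?_
  rw [if_pos i.2]

end Pool.Agent.J4.H18.TT
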