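import Pool.Agent.J4.H18.TT.Stab

set_option autoImplicit false

/-!
# Local functional equations under automorphisms and under homogenisation
-/

namespace Pool.Agent.J4.H18.TT.DM

open MvPolynomial
open Pool.Agent.H628R4.TP
open Pool.Agent.Y229.RE (mul_mem)

variable {N r : ℕ}

/-- operators are carried by automorphisms to operators -/
theorem op_transfer (φ : MvPolynomial (Fin N) ℂ ≃ₐ[ℂ] MvPolynomial (Fin N) ℂ)
    (Q : Module.End ℂ (MvPolynomial (Fin N) ℂ)) (hQ : Q ∈ weylS (Fin N)) :
    ∃ Q' ∈ weylS (Fin N), ∀ g, φ (Q g) = Q' (φ g) := by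
  unfold weylS at hQ
  induction hQ using Algebra.adjoin_induction with
  | mem P hP =>
    rcases hP with ⟨i, rfl⟩ | ⟨i, rfl⟩
    · refine ⟨LinearMap.mulLeft ℂ (φ (X i)), mul_mem _, fun g => ?_⟩
      rw [LinearMap.mulLeft_apply, LinearMap.mulLeft_apply, map_mul]
    · refine ⟨∑ j, LinearMap.mulLeft ℂ (φ (pderiv i (φ.symm (X j)))) * pl j,
        Subalgebra.sum_mem _ fun j _ => Subalgebra.mul_mem _ (mul_mem _) (pl_mem j), fun g => ?_⟩
      obtain ⟨g, rfl⟩ := φ.symm.surjective g
      rw [AlgEquiv.apply_symm_apply, LinearMap.sum_apply]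
      show φ (pderiv i (φ.symm g)) = ∑ j, φ (pderiv i (φ.symm (X j))) * pderiv j g
      induction g using MvPolynomial.induction_on with
      | C c =>
        rw [show φ.symm (C c : MvPolynomial (Fin N) ℂ) = C c from φ.symm.commutes c, pderiv_C,
          map_zero]
        exact (Finset.sum_eq_zero fun j _ => by rw [pderiv_C, mul_zero]).symm
      | add p q hp hq =>
        rw [map_add, map_add, map_add, hp, hq, ← Finset.sum_add_distrib]
        refine Finset.sum_congr rfl fun j _ => ?_
        rw [map_add, mul_add]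
      | mul_X p j0 hp =>
        classical
        rw [map_mul, Derivation.leibniz, smul_eq_mul, smul_eq_mul, map_add, map_mul, map_mul, hp,
          AlgEquiv.apply_symm_apply, AlgEquiv.apply_symm_apply]
        have h2 : ∀ j, φ (pderiv i (φ.symm (X j))) * pderiv j (p * X j0) =
            (if j = j0 then p * φ (pderiv i (φ.symm (X j0))) else 0) +
              X j0 * (φ (pderiv i (φ.symm (X j))) * pderiv j p) := by
          intro j
          rw [Derivation.leibniz, smul_eq_mul, smul_eq_mul]
          by_cases h3 : j = j0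
          · subst h3
            rw [pderiv_X_self, if_pos rfl]
            ring
          · rw [pderiv_X_of_ne (Ne.symm h3), if_neg h3]
            ring
        rw [Finset.sum_congr rfl fun j _ => h2 j, Finset.sum_add_distrib, Finset.sum_ite_eq' _ j0,
          if_pos (Finset.mem_univ _), Finset.mul_sum]
  | algebraMap c =>
    refine ⟨algebraMap ℂ _ c, Subalgebra.algebraMap_mem _ c, fun g => ?_⟩
    rw [Module.algebraMap_end_apply, Module.algebraMap_end_apply, map_smul]
  | add P Q _ _ hP hQ =>
    obtain ⟨P', h1, h2⟩ := hP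
    obtain ⟨Q', h3, h4⟩ := hQ
    refine ⟨P' + Q', Subalgebra.add_mem _ h1 h3, fun g => ?_⟩
    rw [LinearMap.add_apply, LinearMap.add_apply, map_add, h2, h4]
  | mul P Q _ _ hP hQ =>
    obtain ⟨P', h1, h2⟩ := hP
    obtain ⟨Q', h3, h4⟩ := hQ
    refine ⟨P' * Q', Subalgebra.mul_mem _ h1 h3, fun g => ?_⟩
    rw [Module.End.mul_apply, Module.End.mul_apply, h2, h4]

theorem transfer (φ : MvPolynomial (Fin N) ℂ ≃ₐ[ℂ] MvPolynomial (Fin N) ℂ)
    {g : MvPolynomial (Fin N) ℂ} {F : ℕ → MvPolynomial (Fin N) ℂ} (hF : WW (B1 g) F) :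
    WW (B1 (φ g)) (fun s => φ (F s)) := by
  induction hF with
  | base i =>
    convert WW.base (B := B1 (φ g)) () using 2 with s
    exact map_pow φ g (s + 1)
  | zero => simpa using WW.zero
  | add _ _ h1 h2 => simpa only [map_add] using h1.add h2
  | op Q hQ _ h1 =>
    obtain ⟨Q', hQ', h2⟩ := op_transfer φ Q hQ
    simpa only [h2] using h1.op Q' hQ'
  | smulS _ h1 => simpa only [map_smul] using h1.smulS

section Hom

variable {K : Type} [Field K]

/-- the substitution `v_i ↦ v_i t_{g i}` -/
noncomputable def sg (g : Fin N → Fin r) :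
    MvPolynomial (Fin (N + r)) K →ₐ[K] MvPolynomial (Fin (N + r)) K :=
  aeval (Fin.addCases (fun i => X (Fin.castAdd r i) * X (Fin.natAdd N (g i)))
    (fun a => X (Fin.natAdd N a)))

theorem sg_l (g : Fin N → Fin r) (i : Fin N) : sg (K := K) g (X (Fin.castAdd r i)) =
    X (Fin.castAdd r i) * X (Fin.natAdd N (g i)) := by
  unfold sg
  rw [aeval_X, Fin.addCases_left]

theorem sg_r (g : Fin N → Fin r) (a : Fin r) : sg (K := K) g (X (Fin.natAdd N a)) =
    X (Fin.natAdd N a) := by
  unfold sg
  rw [aeval_X, Fin.addCases_right]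

theorem sg_C (g : Fin N → Fin r) (c : K) : sg (K := K) g (C c) = C c := AlgHom.commutes _ c

/-- `∏ t_a` -/
noncomputable def tau (K : Type) [Field K] (N r : ℕ) : MvPolynomial (Fin (N + r)) K :=
  ∏ a : Fin r, X (Fin.natAdd N a)

/-- `∏_{b ≠ a} t_b` -/
noncomputable def taud (K : Type) [Field K] (N : ℕ) {r : ℕ} (a : Fin r) :
    MvPolynomial (Fin (N + r)) K :=
  ∏ b ∈ Finset.univ.erase a, X (Fin.natAdd N b)

theorem tau_eq (a : Fin r) : tau K N r = X (Fin.natAdd N a) * taud K N a := by
  unfold tau taud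
  rw [Finset.mul_prod_erase Finset.univ (fun b => (X (Fin.natAdd N b) : MvPolynomial _ K))
    (Finset.mem_univ a)]

theorem sg_tau (g : Fin N → Fin r) : sg g (tau K N r) = tau K N r := by
  unfold tau
  rw [map_prod]
  exact Finset.prod_congr rfl fun a _ => sg_r g a

theorem sg_taud (g : Fin N → Fin r) (a : Fin r) : sg g (taud K N a) = taud K N a := by
  unfold taud
  rw [map_prod]
  exact Finset.prod_congr rfl fun a _ => sg_r g a

theorem sg_inj (g : Fin N → Fin r) : Function.Injective (sg (K := K) g) := by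
  set A := MvPolynomial (Fin (N + r)) K with hA
  set ρ : A →ₐ[K] FractionRing A := aeval (Fin.addCases
    (fun i => algebraMap A (FractionRing A) (X (Fin.castAdd r i)) /
      algebraMap A (FractionRing A) (X (Fin.natAdd N (g i))))
    (fun a => algebraMap A (FractionRing A) (X (Fin.natAdd N a)))) with hρ
  have h1 : ρ.comp (sg g) = IsScalarTower.toAlgHom K A (FractionRing A) := by
    apply MvPolynomial.algHom_ext
    intro i
    rw [AlgHom.comp_apply, IsScalarTower.coe_toAlgHom']
    refine Fin.addCases (fun i => ?_) (fun a => ?_) i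
    · rw [sg_l, map_mul, hρ, aeval_X, aeval_X, Fin.addCases_left, Fin.addCases_right]
      refine div_mul_cancel₀ _ ?_
      exact (map_ne_zero_iff _ (IsFractionRing.injective A (FractionRing A))).2 (X_ne_zero _)
    · rw [sg_r, hρ, aeval_X, Fin.addCases_right]
  intro p q hpq
  have h2 : ρ.comp (sg g) p = ρ.comp (sg g) q := by
    rw [AlgHom.comp_apply, AlgHom.comp_apply, hpq]
  rw [h1] at h2
  exact IsFractionRing.injective A (FractionRing A) h2

theorem unit_lift (g : Fin N → Fin r) (u : MvPolynomial (Fin N) K) :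
    ∃ (M : ℕ) (u' : MvPolynomial (Fin (N + r)) K),
      sg g u' = tau K N r ^ M * rename (Fin.castAdd r) u := by
  induction u using MvPolynomial.induction_on with
  | C c => exact ⟨0, C c, by rw [sg_C, pow_zero, one_mul, rename_C]⟩
  | add p q hp hq =>
    obtain ⟨M, p', h1⟩ := hp
    obtain ⟨M', q', h2⟩ := hq
    refine ⟨M + M', tau K N r ^ M' * p' + tau K N r ^ M * q', ?_⟩
    rw [map_add, map_mul, map_mul, map_pow, map_pow, sg_tau, h1, h2, map_add, pow_add]
    ring
  | mul_X p i hp =>
    obtain ⟨M, p', h1⟩ := hp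
    refine ⟨M + 1, p' * (X (Fin.castAdd r i) * taud K N (g i)), ?_⟩
    rw [map_mul, map_mul, sg_l, sg_taud, h1, map_mul, rename_X, pow_succ, tau_eq (K := K) (g i)]
    ring

/-- the degree in the variables of the group `a` -/
noncomputable def dg (g : Fin N → Fin r) (d : Fin N →₀ ℕ) (a : Fin r) : ℕ :=
  ∑ i with g i = a, d i

/-- the homogenised exponent -/
noncomputable def hexp (g : Fin N → Fin r) (d : Fin N →₀ ℕ) : Fin (N + r) →₀ ℕ :=
  Finsupp.equivFunOnFinite.symm (Fin.addCases (fun i => d i) fun a => 1 - dg g d a)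

/-- the homogenisation of a polynomial which is of degree at most one in every group -/
noncomputable def hmg (g : Fin N → Fin r) (G : MvPolynomial (Fin N) K) :
    MvPolynomial (Fin (N + r)) K :=
  ∑ d ∈ G.support, monomial (hexp g d) (coeff d G)

theorem sg_hmg (g : Fin N → Fin r) (G : MvPolynomial (Fin N) K)
    (hG : ∀ d ∈ G.support, ∀ a, dg g d a ≤ 1) :
    sg g (hmg g G) = tau K N r * rename (Fin.castAdd r) G := by
  conv_rhs => rw [G.as_sum]
  unfold hmg
  rw [map_sum, map_sum, Finset.mul_sum]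
  refine Finset.sum_congr rfl fun d hd => ?_
  rw [monomial_eq, monomial_eq, Finsupp.prod_fintype _ _ fun i => pow_zero _,
    Finsupp.prod_fintype _ _ fun i => pow_zero _, Fin.prod_univ_add]
  simp only [map_mul, map_prod, map_pow, sg_C, sg_l, sg_r, rename_C, rename_X, hexp,
    Finsupp.equivFunOnFinite_symm_apply_apply, Fin.addCases_left, Fin.addCases_right]
  have h1 : ∏ i : Fin N, (X (Fin.natAdd N (g i)) : MvPolynomial (Fin (N + r)) K) ^ d i =
      ∏ a : Fin r, X (Fin.natAdd N a) ^ dg g d a := by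
    rw [← Finset.prod_fiberwise Finset.univ g]
    refine Finset.prod_congr rfl fun a _ => ?_
    unfold dg
    rw [← Finset.prod_pow_eq_pow_sum]
    refine Finset.prod_congr rfl fun i hi => ?_
    rw [(Finset.mem_filter.1 hi).2]
  have h2 : (∏ a : Fin r, (X (Fin.natAdd N a) : MvPolynomial (Fin (N + r)) K) ^ dg g d a) *
      (∏ a : Fin r, X (Fin.natAdd N a) ^ (1 - dg g d a)) = tau K N r := by
    rw [← Finset.prod_mul_distrib]
    unfold tau
    refine Finset.prod_congr rfl fun a _ => ?_
    rw [← pow_add, Nat.add_sub_cancel' (hG d hd a), pow_one]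
  simp only [mul_pow, Finset.prod_mul_distrib]
  rw [h1, ← h2]
  ring

end Hom

/-! ### Functional equations of the homogenisation -/

theorem pd_sg (g : Fin N → Fin r) (i : Fin N) (q : MvPolynomial (Fin (N + r)) ℂ) :
    pderiv (Fin.castAdd r i) (sg g q) =
      X (Fin.natAdd N (g i)) * sg g (pderiv (Fin.castAdd r i) q) := by
  classical
  have hne : ∀ (i : Fin N) (a : Fin r), Fin.natAdd N a ≠ Fin.castAdd r i := by
    intro i a h
    have := congrArg Fin.val h
    simp at this
    omega
  induction q using MvPolynomial.induction_on with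
  | C c => rw [sg_C, pderiv_C, map_zero, mul_zero]
  | add p q hp hq => rw [map_add, map_add, map_add, map_add, hp, hq, mul_add]
  | mul_X p j hp =>
    rw [map_mul, Derivation.leibniz, Derivation.leibniz, hp]
    simp only [smul_eq_mul]
    rw [map_add, map_mul, map_mul]
    refine Fin.addCases (fun j => ?_) (fun a => ?_) j
    · rw [sg_l, Derivation.leibniz, pderiv_X_of_ne (hne i (g j)), smul_zero, zero_add, smul_eq_mul]
      by_cases h : j = i
      · subst h
        rw [pderiv_X_self, map_one]
        ring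
      · have h' : Fin.castAdd r j ≠ Fin.castAdd r i := fun e => h (Fin.castAdd_injective _ _ e)
        rw [pderiv_X_of_ne h', map_zero]
        ring
    · rw [sg_r, pderiv_X_of_ne (hne i a), map_zero]
      ring

/-- the sequence `F` is carried to a sequence for the homogenisation -/
def HR (g : Fin N → Fin r) (T : MvPolynomial (Fin (N + r)) ℂ) (F : ℕ → MvPolynomial (Fin N) ℂ) :
    Prop :=
  ∃ (M : ℕ) (F' : ℕ → MvPolynomial (Fin (N + r)) ℂ), WW (B1 T) F' ∧
    ∀ s, sg g (F' s) = tau ℂ N r ^ (M + s + 1) * rename (Fin.castAdd r) (F s)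

variable {g : Fin N → Fin r} {T : MvPolynomial (Fin (N + r)) ℂ} {F G : ℕ → MvPolynomial (Fin N) ℂ}

theorem HR.add (hF : HR g T F) (hG : HR g T G) : HR g T (fun s => F s + G s) := by
  obtain ⟨M, F', h1, h2⟩ := hF
  obtain ⟨M', G', h3, h4⟩ := hG
  refine ⟨M + M', fun s => tau ℂ N r ^ M' * F' s + tau ℂ N r ^ M * G' s,
    (h1.mulL _).add (h3.mulL _), fun s => ?_⟩
  beta_reduce
  rw [map_add, map_mul, map_mul, map_pow, map_pow, sg_tau, h2, h4, map_add,
    show M + M' + s + 1 = M + (M' + s + 1) by ring, pow_add _ M (M' + s + 1),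
    show M' + s + 1 = M' + (s + 1) by ring, show M + s + 1 = M + (s + 1) by ring,
    pow_add _ M' (s + 1), pow_add _ M (s + 1)]
  ring

theorem HR.op {Q : Module.End ℂ (MvPolynomial (Fin N) ℂ)} (hQ : Q ∈ weylS (Fin N)) :
    ∀ {F : ℕ → MvPolynomial (Fin N) ℂ}, HR g T F → HR g T (fun s => Q (F s)) := by
  unfold weylS at hQ
  induction hQ using Algebra.adjoin_induction with
  | mem P hP =>
    rintro F ⟨M, F', h1, h2⟩
    rcases hP with ⟨i, rfl⟩ | ⟨i, rfl⟩
    · refine ⟨M + 1, fun s => (X (Fin.castAdd r i) * taud ℂ N (g i)) * F' s, h1.mulL _,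
        fun s => ?_⟩
      beta_reduce
      rw [map_mul, map_mul, sg_l, sg_taud, h2, LinearMap.mulLeft_apply, map_mul, rename_X,
        show M + 1 + s + 1 = (M + s + 1) + 1 by ring, pow_succ _ (M + s + 1),
        tau_eq (K := ℂ) (g i)]
      ring
    · refine ⟨M, fun s => X (Fin.natAdd N (g i)) * pl (Fin.castAdd r i) (F' s),
        (h1.op _ (pl_mem _)).mulL _, fun s => ?_⟩
      have h3 := pd_sg g i (F' s)
      rw [h2] at h3
      beta_reduce
      rw [map_mul, sg_r, pl_apply, ← h3, Derivation.leibniz, pderiv_rename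
        (Fin.castAdd_injective _ _), Derivation.leibniz_pow]
      have h4 : pderiv (Fin.castAdd r i) (tau ℂ N r) = 0 := by
        classical
        have h5 : ∀ S : Finset (Fin r), pderiv (Fin.castAdd r i)
            (∏ a ∈ S, (X (Fin.natAdd N a) : MvPolynomial (Fin (N + r)) ℂ)) = 0 := by
          intro S
          induction S using Finset.induction_on with
          | empty => rw [Finset.prod_empty, pderiv_one]
          | insert a S ha ih =>
            rw [Finset.prod_insert ha, Derivation.leibniz, ih, pderiv_X_of_ne, smul_zero,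
              smul_zero, add_zero]
            intro h
            have := congrArg Fin.val h
            simp at this
            omega
        exact h5 Finset.univ
      rw [h4, smul_zero, smul_zero, smul_zero, add_zero, smul_eq_mul]
      rfl
  | algebraMap c =>
    rintro F ⟨M, F', h1, h2⟩
    refine ⟨M, fun s => c • F' s, h1.smulC c, fun s => ?_⟩
    beta_reduce
    rw [map_smul, h2, Module.algebraMap_end_apply, map_smul, mul_smul_comm]
  | add P Q _ _ hP hQ =>
    intro F hF
    exact (hP hF).add (hQ hF)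
  | mul P Q _ _ hP hQ =>
    intro F hF
    exact hP (hQ hF)

theorem HR.of_WW {G₀ : MvPolynomial (Fin N) ℂ}
    (hT : sg g T = tau ℂ N r * rename (Fin.castAdd r) G₀) (hF : WW (B1 G₀) F) : HR g T F := by
  induction hF with
  | base i =>
    refine ⟨0, fun s => T ^ (s + 1), WW.base (B := B1 T) (), fun s => ?_⟩
    beta_reduce
    rw [map_pow, hT, mul_pow, zero_add, ← map_pow]
    rfl
  | zero => exact ⟨0, fun _ => 0, WW.zero, fun s => by beta_reduce; rw [map_zero, map_zero, mul_zero]⟩
  | add _ _ h1 h2 => exact h1.add h2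
  | op Q hQ _ h1 => exact h1.op hQ
  | smulS _ h1 =>
    obtain ⟨M, F', h1, h2⟩ := h1
    refine ⟨M, fun s => (s : ℂ) • F' s, h1.smulS, fun s => ?_⟩
    beta_reduce
    rw [map_smul, h2, map_smul, mul_smul_comm]

/-- **The local functional equation of the homogenisation.** -/
theorem hom_eq {G₀ u : MvPolynomial (Fin N) ℂ} {u' : MvPolynomial (Fin (N + r)) ℂ} {M₀ : ℕ}
    (hT : sg g T = tau ℂ N r * rename (Fin.castAdd r) G₀)
    (hu : sg g u' = tau ℂ N r ^ M₀ * rename (Fin.castAdd r) u) {b : Polynomial ℂ}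
    (h : WW (B1 G₀) (fun s => b.eval (s : ℂ) • (u * G₀ ^ s))) :
    ∃ e : ℕ, WW (B1 T) (fun s => b.eval (s : ℂ) • ((tau ℂ N r ^ e * u') * T ^ s)) := by
  obtain ⟨M, F', h1, h2⟩ := HR.of_WW hT h
  refine ⟨M + 1, ?_⟩
  convert h1.mulL (tau ℂ N r ^ M₀) using 2 with s
  refine sg_inj g ?_
  rw [map_smul, map_mul, map_mul, map_mul, map_pow, map_pow, map_pow, sg_tau, h2 s, hu, hT,
    map_smul, map_mul, map_pow, mul_pow, show M + s + 1 = (M + 1) + s by ring, pow_add _ (M + 1) s,
    mul_smul_comm, mul_smul_comm]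
  congr 1
  ring

end Pool.Agent.J4.H18.TT.DM
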