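import Pool.Agent.J4.H18.TT.Hom
import Pool.Agent.J4.H18.TT.Alg
import Pool.Agent.Y405.MS.Aut

/-!
# Local functional equations over a base field
-/

set_option autoImplicit false

namespace Pool.Agent.J4.H18.TT

open MvPolynomial hiding psum
open Pool.Agent.H628R4.TP Pool.Agent.Y229.MS
open Pool.Agent.Y229.RE (Sep mul_mem)
open Pool.Agent.J4.H18.TT.DM

section
variable {k : Type} [Field k] [Algebra k ℂ] {K : Type} [Field K] [Algebra k K] {n : ℕ}

/-- A functional equation of `f` near the point `x` (with coordinates in a field `K ⊃ k`):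
`u b(s) f ^ s = P(s) f ^ (s + 1)`, `P(s) = ∑_m P_m s ^ m` with `P_m` in the Weyl algebra, `u` a polynomial
over `k` with `u(x) ≠ 0`. It is stated for all `s ∈ ℕ`, as in `IsBFunction`. On the open set `u ≠ 0` of
the affine space this is an equation `b(s) f ^ s = (u⁻¹ P(s)) f ^ (s + 1)`, and every functional
equation of `f` on an open set which contains `x` is of this form. -/
def LocB (f : MvPolynomial (Fin n) k) (x : Fin n → K) (b : Polynomial ℂ) : Prop :=
  ∃ u : MvPolynomial (Fin n) k, aeval x u ≠ 0 ∧ ∃ P : ℕ →₀ weylS (Fin n), ∀ s : ℕ,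
    C (b.eval (s : ℂ)) * (map (algebraMap k ℂ) u * map (algebraMap k ℂ) f ^ s) =
      P.sum fun m Q => ((s : ℂ) ^ m) •
        (Q : Module.End ℂ (MvPolynomial (Fin n) ℂ)) (map (algebraMap k ℂ) f ^ (s + 1))

end

/-- the two forms of functional equations -/
theorem ww_iff {n : ℕ} {f : MvPolynomial (Fin n) ℂ} {F : ℕ → MvPolynomial (Fin n) ℂ} :
    (∃ P : ℕ →₀ weylS (Fin n), ∀ s : ℕ, F s = P.sum fun m Q => ((s : ℂ) ^ m) •
        (Q : Module.End ℂ (MvPolynomial (Fin n) ℂ)) (f ^ (s + 1))) ↔ WW (B1 f) F := by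
  constructor
  · rintro ⟨P, hP⟩
    have h1 : WW (B1 f) (fun s => ∑ m ∈ P.support, ((s : ℂ) ^ m) •
        (P m : Module.End ℂ (MvPolynomial (Fin n) ℂ)) (f ^ (s + 1))) := by
      refine WW.sum _ _ fun m _ => ?_
      have h2 : ∀ m' : ℕ, WW (B1 f) (fun s => ((s : ℂ) ^ m') •
          (P m : Module.End ℂ (MvPolynomial (Fin n) ℂ)) (f ^ (s + 1))) := by
        intro m'
        induction m' with
        | zero => simpa [B1] using WW.op _ (P m).2 (WW.base (B := B1 f) ())
        | succ m' ih =>
          convert ih.smulS using 2 with s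
          rw [smul_smul, pow_succ, mul_comm]
      exact h2 m
    convert h1 using 2 with s
    exact hP s
  · intro h
    obtain ⟨L, hL⟩ := h.toList
    suffices H : ∃ P : ℕ →₀ weylS (Fin n), ∀ s : ℕ, (L.map fun x => ((s : ℂ) ^ x.2.1) •
        (x.2.2 : Module.End ℂ (MvPolynomial (Fin n) ℂ)) (B1 f x.1 s)).sum =
        P.sum fun m Q => ((s : ℂ) ^ m) •
          (Q : Module.End ℂ (MvPolynomial (Fin n) ℂ)) (f ^ (s + 1)) by
      obtain ⟨P, hP⟩ := H
      exact ⟨P, fun s => by rw [hL, hP]⟩
    clear hL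
    induction L with
    | nil => exact ⟨0, fun s => by simp⟩
    | cons x L ih =>
      obtain ⟨P, hP⟩ := ih
      refine ⟨Finsupp.single x.2.1 x.2.2 + P, fun s => ?_⟩
      rw [List.map_cons, List.sum_cons, hP, Finsupp.sum_add_index' (by simp) (by
        intro m Q Q'
        simp), Finsupp.sum_single_index (by simp)]
      rfl

section
variable {k : Type} [Field k] [Algebra k ℂ] {K : Type} [Field K] [Algebra k K] {n : ℕ}

theorem locB_iff {f : MvPolynomial (Fin n) k} {x : Fin n → K} {b : Polynomial ℂ} :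
    LocB f x b ↔ ∃ u : MvPolynomial (Fin n) k, aeval x u ≠ 0 ∧
      WW (B1 (map (algebraMap k ℂ) f)) (fun s => b.eval (s : ℂ) •
        (map (algebraMap k ℂ) u * map (algebraMap k ℂ) f ^ s)) := by
  unfold LocB
  refine exists_congr fun u => and_congr_right fun _ => ?_
  rw [← ww_iff]
  refine exists_congr fun P => forall_congr' fun s => ?_
  rw [MvPolynomial.smul_eq_C_mul (map (algebraMap k ℂ) u * map (algebraMap k ℂ) f ^ s)]

end

lemma sep_stab' {N k : ℕ} : Sep (N := N) (Fin.castAdd (k + k))
    (fun i : Fin k => Fin.natAdd N (Fin.castAdd k i))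
    (fun i : Fin k => Fin.natAdd N (Fin.natAdd k i)) where
  i1 := Fin.castAdd_injective _ _
  i2 := fun i j h => by
    have := congrArg Fin.val h
    simp at this
    exact Fin.ext this
  i3 := fun i j h => by
    have := congrArg Fin.val h
    simp at this
    exact Fin.ext this
  n1 := fun i j h => by
    have := congrArg Fin.val h
    simp at this
    omega
  n2 := fun i j h => by
    have := congrArg Fin.val h
    simp at this
    omega
  n3 := fun i j h => by
    have := congrArg Fin.val h
    simp at this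
    omega

section
variable {k K : Type} [Field k] [Field K] [Algebra k K] {N r : ℕ}

theorem map_sg (g : Fin N → Fin r) (q : MvPolynomial (Fin (N + r)) k) :
    map (algebraMap k K) (sg g q) = sg g (map (algebraMap k K) q) := by
  induction q using MvPolynomial.induction_on with
  | C c => rw [sg_C, map_C, sg_C]
  | add p q hp hq => rw [map_add, map_add, map_add, map_add, hp, hq]
  | mul_X p i hp =>
    rw [map_mul, map_mul, map_mul, map_mul, hp, map_X]
    congr 1
    refine Fin.addCases (fun i => ?_) (fun a => ?_) i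
    · rw [sg_l, sg_l, map_mul, map_X, map_X]
    · rw [sg_r, sg_r, map_X]

theorem map_tau : map (algebraMap k K) (tau k N r) = tau K N r := by
  unfold tau
  rw [map_prod]
  exact Finset.prod_congr rfl fun a _ => map_X _ _

theorem map_hom {g : Fin N → Fin r} {T : MvPolynomial (Fin (N + r)) k}
    {G : MvPolynomial (Fin N) k} (hT : sg g T = tau k N r * rename (Fin.castAdd r) G) :
    sg g (map (algebraMap k K) T) =
      tau K N r * rename (Fin.castAdd r) (map (algebraMap k K) G) := by
  rw [← map_sg, hT, map_mul, map_tau, map_rename]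

/-- evaluation at `(p, 1, …, 1)` -/
theorem aeval_sg (g : Fin N → Fin r) (p : Fin N → K) (q : MvPolynomial (Fin (N + r)) k) :
    aeval (Fin.append p fun _ : Fin r => (1 : K)) (sg g q) =
      aeval (Fin.append p fun _ : Fin r => (1 : K)) q := by
  have h : (aeval (Fin.append p fun _ : Fin r => (1 : K)) : _ →ₐ[k] K).comp (sg g) =
      aeval (Fin.append p fun _ : Fin r => (1 : K)) := by
    apply MvPolynomial.algHom_ext
    intro i
    rw [AlgHom.comp_apply]
    refine Fin.addCases (fun i => ?_) (fun a => ?_) i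
    · rw [sg_l, map_mul, aeval_X, aeval_X, Fin.append_left, Fin.append_right, mul_one]
    · rw [sg_r]
  exact DFunLike.congr_fun h q

theorem aeval_tau (p : Fin N → K) :
    aeval (Fin.append p fun _ : Fin r => (1 : K)) (tau k N r) = 1 := by
  unfold tau
  rw [map_prod]
  exact Finset.prod_eq_one fun a _ => by rw [aeval_X, Fin.append_right]

theorem aeval_ren (p : Fin N → K) (u : MvPolynomial (Fin N) k) :
    aeval (Fin.append p fun _ : Fin r => (1 : K)) (rename (Fin.castAdd r) u) = aeval p u := by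
  rw [aeval_rename]
  congr 2
  funext i
  exact Fin.append_left _ _ _

end

section
variable {k : Type} [Field k] [Algebra k ℂ] {K : Type} [Field K] [Algebra k K] {n κ : ℕ}

/-- **Local functional equations of the trilinear form.** -/
theorem loc_chain {f : MvPolynomial (Fin n) k} (hf : f ≠ 0) {x : Fin n → K}
    (ψ : MvPolynomial (Fin (n + (κ + κ))) k ≃ₐ[k] MvPolynomial (Fin (n + (κ + κ))) k)
    {r : ℕ} (g : Fin (n + (κ + κ)) → Fin r) {T : MvPolynomial (Fin (n + (κ + κ) + r)) k}
    (hT : sg g T = tau k _ r * rename (Fin.castAdd r) (ψ (stabK f κ)))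
    (p : Fin (n + (κ + κ)) → K)
    (hp : ∀ q, aeval p (ψ q) = aeval (Fin.append x fun _ => (0 : K)) q)
    {c : Polynomial ℂ} (h : LocB f x ((Polynomial.X + 1) * c)) :
    LocB T (Fin.append p fun _ : Fin r => (1 : K))
      ((Polynomial.X + 1) * c.comp (Polynomial.X + Polynomial.C (κ : ℂ))) := by
  rw [locB_iff] at h ⊢
  obtain ⟨u, hu, hw⟩ := h
  have hfC : map (algebraMap k ℂ) f ≠ 0 := by
    rw [Ne, map_eq_zero_iff _ (map_injective _ (algebraMap k ℂ).injective)]
    exact hf
  obtain ⟨ψC, hψC⟩ := Pool.Agent.Y405.MS.bc k ℂ ψ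
  have h1 := (reduced hfC hw).2 c rfl
  have h2 := unreduced (red_stab (sep_stab' (N := n) (k := κ)) _ _ c h1)
  have h3 := transfer ψC h2
  have e1 : rename (Fin.castAdd (κ + κ)) (map (algebraMap k ℂ) f) +
      qq (fun i : Fin κ => Fin.natAdd n (Fin.castAdd κ i))
        (fun i : Fin κ => Fin.natAdd n (Fin.natAdd κ i)) =
      map (algebraMap k ℂ) (stabK f κ) := by
    unfold stabK qq
    simp only [map_add, map_sum, map_mul, map_X, map_rename]
  have e2 : rename (Fin.castAdd (κ + κ)) (map (algebraMap k ℂ) u) =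
      map (algebraMap k ℂ) (rename (Fin.castAdd (κ + κ)) u) := (map_rename _ _ _).symm
  rw [e1, e2] at h3
  simp only [map_smul, map_mul, map_pow, hψC] at h3
  obtain ⟨M₀, u', hu'⟩ := unit_lift g (ψ (rename (Fin.castAdd (κ + κ)) u))
  have hu'C : sg g (map (algebraMap k ℂ) u') = tau ℂ _ r ^ M₀ * rename (Fin.castAdd r)
      (map (algebraMap k ℂ) (ψ (rename (Fin.castAdd (κ + κ)) u))) := by
    rw [← map_sg, hu', map_mul, map_pow, map_tau, map_rename]
  obtain ⟨e, he⟩ := hom_eq (map_hom (K := ℂ) hT) hu'C h3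
  refine ⟨tau k _ r ^ e * u', ?_, ?_⟩
  · have h5 : aeval (Fin.append p fun _ : Fin r => (1 : K)) u' = aeval x u := by
      rw [← aeval_sg g p u', hu', map_mul, map_pow, aeval_tau, one_pow, one_mul, aeval_ren, hp,
        aeval_rename]
      congr 2
      funext i
      exact Fin.append_left _ _ _
    rw [map_mul, map_pow, aeval_tau, one_pow, one_mul, h5]
    exact hu
  · rw [map_mul, map_pow, map_tau]
    exact he

/-- divisibility by polynomials over a smaller field -/
theorem dvd_descent {f u : MvPolynomial (Fin n) k} {w : MvPolynomial (Fin n) ℂ}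
    (h : map (algebraMap k ℂ) u = map (algebraMap k ℂ) f * w) : ∃ w', u = f * w' := by
  obtain ⟨ρ, hρ⟩ := LinearMap.exists_leftInverse_of_injective (Algebra.linearMap k ℂ)
    (LinearMap.ker_eq_bot.2 (algebraMap k ℂ).injective)
  have hρ' : ∀ a b, ρ (algebraMap k ℂ a * b) = a * ρ b := by
    intro a b
    rw [← Algebra.smul_def, map_smul, smul_eq_mul]
  have hρ1 : ∀ a, ρ (algebraMap k ℂ a) = a := fun a => DFunLike.congr_fun hρ a
  refine ⟨∑ d ∈ w.support, monomial d (ρ (coeff d w)), ?_⟩
  have hc : ∀ d, coeff d (∑ d ∈ w.support, monomial d (ρ (coeff d w)) : MvPolynomial (Fin n) k) =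
      ρ (coeff d w) := by
    classical
    intro d
    rw [coeff_sum]
    simp only [coeff_monomial]
    rw [Finset.sum_ite_eq']
    split_ifs with h'
    · rfl
    · rw [notMem_support_iff.1 h', map_zero]
  ext d
  rw [coeff_mul]
  simp only [hc]
  have h2 := congrArg (fun q => ρ (coeff d q)) h
  simp only [coeff_map, coeff_mul, map_sum, hρ', hρ1] at h2
  exact h2

/-- `-1` is a root at the points of the zero set -/
theorem root_minus {f : MvPolynomial (Fin n) k} (hf : f ≠ 0) {x : Fin n → K}
    (hx : aeval x f = 0) {b : Polynomial ℂ} (h : LocB f x b) : b.eval (-1) = 0 := by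
  rw [locB_iff] at h
  obtain ⟨u, hu, hw⟩ := h
  have hfC : map (algebraMap k ℂ) f ≠ 0 := by
    rw [Ne, map_eq_zero_iff _ (map_injective _ (algebraMap k ℂ).injective)]
    exact hf
  obtain ⟨w, hw'⟩ := (reduced hfC hw).1
  by_contra hne
  have h1 : map (algebraMap k ℂ) u = map (algebraMap k ℂ) f * (C (b.eval (-1))⁻¹ * w) := by
    have h2 : (C (b.eval (-1))⁻¹ * C (b.eval (-1)) : MvPolynomial (Fin n) ℂ) = 1 := by
      rw [← C_mul, inv_mul_cancel₀ hne, C_1]
    calc map (algebraMap k ℂ) u = (C (b.eval (-1))⁻¹ * C (b.eval (-1))) *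
          map (algebraMap k ℂ) u := by rw [h2, one_mul]
      _ = C (b.eval (-1))⁻¹ * (C (b.eval (-1)) * map (algebraMap k ℂ) u) := by ring
      _ = C (b.eval (-1))⁻¹ * (map (algebraMap k ℂ) f * w) := by rw [hw']
      _ = _ := by ring
  obtain ⟨w', h3⟩ := dvd_descent h1
  apply hu
  rw [h3, map_mul, hx, zero_mul]

end

end Pool.Agent.J4.H18.TT
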