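import Pool.Agent.J4.H18.TT.Tri

/-!
# The motivic monodromy conjecture for all polynomials follows from the conjecture for trilinear forms
-/

set_option autoImplicit false

namespace Pool.Agent.J4.H18.TT

open MvPolynomial hiding psum
open Pool.Agent.W428.MOT
open Pool.Agent.Y229.MS (itr addyz fst' stabK CE ce_good)
open Pool.Agent.W375.MG (good_one)
open Pool.Agent.J4.H18.TT.DM
open Pool.Agent.J4.H25.MC (den rat geoU Rec coreA coreB exists_finset Sep shU rat_mono geo_mem_rat den_geo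
  den_mem_rat)

theorem cz (k : Type) [Field k] [Algebra k ℂ] : CharZero k :=
  (algebraMap k ℂ).charZero

theorem czK (k : Type) [Field k] [Algebra k ℂ] (K : Type) [Field K] [Algebra k K] : CharZero K :=
  have := cz k
  charZero_of_injective_algebraMap (algebraMap k K).injective

section
variable {k : Type} [Field k] [Algebra k ℂ] {n : ℕ}

/-- the relation between `f` at `x` and `T` at `P` -/
def Rel (f : MvPolynomial (Fin n) k) (κ : ℕ) {N : ℕ} (T : MvPolynomial (Fin N) k) {K : Type}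
    [Field K] [Algebra k K] (x : Fin n → K) (P : Fin N → K) : Prop :=
  zeta (map (algebraMap k K) T) P = zeta0 (itr (map (algebraMap k K) f) κ) (W0i {pt x} κ) {1} ∧
  (f ≠ 0 → ∀ c : Polynomial ℂ, LocB f x ((Polynomial.X + 1) * c) →
    LocB T P ((Polynomial.X + 1) * c.comp (Polynomial.X + Polynomial.C (κ : ℂ))))

/-- **The trilinear forms of a polynomial.** -/
theorem exists_tri (hn : 0 < n) (f : MvPolynomial (Fin n) k) : ∃ κ₀ : ℕ, ∀ κ ≥ κ₀,
    ∃ t : Fin (n + 1) → Fin (κ + 1) → Fin (κ + 1) → k, ∀ (K : Type) [Field K] [Algebra k K]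
      (x : Fin n → K), ∃ P, Rel f κ (tri t) x P := by
  obtain ⟨κ₀, h0⟩ := exists_rep f
  refine ⟨κ₀, fun κ hκ => ?_⟩
  have h1 : Rep f κ := Nat.le_induction h0 (fun m _ h => h.succ ⟨0, hn⟩) κ hκ
  obtain ⟨c0, c, p, v, pr, h2, h3, h4⟩ := h1
  obtain ⟨ψ, hψ⟩ := auto h2 h3 h4
  obtain ⟨t, ht⟩ := tri_T3 κ c0 c v pr
  have hT := sg_T3 κ c0 c v pr
  rw [← hψ] at hT
  refine ⟨t, fun K _ _ x => ?_⟩
  have := czK k K
  obtain ⟨p, hp, hz⟩ := zeta_chain f x ψ
  have hab : n + (κ + κ) + 3 = (n + 1) + ((κ + 1) + (κ + 1)) := by omega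
  refine ⟨fun j => aeval (Fin.append p fun _ : Fin 3 => (1 : K))
    ((renameEquiv k (permE κ)).symm (X j)), ?_, fun hf c hc => ?_⟩
  · rw [← ht, zeta_iso hab (renameEquiv k (permE κ)), hz (gr κ) _ hT]
  · rw [← ht]
    exact loc_iso hab _ (loc_chain hf ψ (gr κ) hT p hp hc)

/-! ### The forms of the conjecture at a point -/

section
variable {K : Type} [Field K] [Algebra k K]

/-- a root of the local `b`-function -/
def RT (f : MvPolynomial (Fin n) k) (x : Fin n → K) (p : ℤ × ℤ) : Prop :=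
  0 < p.2 ∧ ∀ b : Polynomial ℂ, LocB f x b → b.eval ((p.1 : ℂ) / p.2) = 0

/-- a root of the reduced local `b`-function -/
def RR (f : MvPolynomial (Fin n) k) (x : Fin n → K) (p : ℤ × ℤ) : Prop :=
  0 < p.2 ∧ ∀ c : Polynomial ℂ, LocB f x ((Polynomial.X + 1) * c) →
    c.eval ((p.1 : ℂ) / p.2) = 0

/-- a root modulo the integers -/
def RW (f : MvPolynomial (Fin n) k) (x : Fin n → K) (p : ℤ × ℤ) : Prop :=
  0 < p.2 ∧ ∀ b : Polynomial ℂ, LocB f x b → ∃ i : ℤ, b.eval ((p.1 : ℂ) / p.2 - i) = 0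

theorem quot_shU (j : ℤ) {p : ℤ × ℤ} (hp : 0 < p.2) :
    (((shU j p).1 : ℤ) : ℂ) / ((shU j p).2 : ℤ) = (p.1 : ℂ) / p.2 + j := by
  have h2 : ((p.2 : ℤ) : ℂ) ≠ 0 := by exact_mod_cast hp.ne'
  unfold shU
  push_cast
  rw [add_div, mul_div_cancel_right₀ _ h2]

theorem factor {f : MvPolynomial (Fin n) k} {x : Fin n → K} (hf : f ≠ 0) (hx : aeval x f = 0)
    {b : Polynomial ℂ} (hb : LocB f x b) : ∃ c, b = (Polynomial.X + 1) * c := by
  have h1 := root_minus hf hx hb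
  have : (Polynomial.X + 1 : Polynomial ℂ) ∣ b := by
    have := Polynomial.dvd_iff_isRoot.2 h1
    simpa using this
  exact this

variable {N κ : ℕ} {f : MvPolynomial (Fin n) k} {T : MvPolynomial (Fin N) k} {x : Fin n → K}
  {P : Fin N → K}

theorem Rel.rr (h : Rel f κ T x P) (hf : f ≠ 0) {p : ℤ × ℤ} (hp : RR T P p) :
    RR f x (shU κ p) := by
  refine ⟨hp.1, fun c hc => ?_⟩
  have h1 := hp.2 _ (h.2 hf c hc)
  rw [Polynomial.eval_comp, Polynomial.eval_add, Polynomial.eval_X, Polynomial.eval_C] at h1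
  rw [quot_shU _ hp.1]
  exact_mod_cast h1

theorem Rel.rw (h : Rel f κ T x P) (hf : f ≠ 0) (hx : aeval x f = 0) {p : ℤ × ℤ}
    (hp : RW T P p) : RW f x p := by
  refine ⟨hp.1, fun b hb => ?_⟩
  obtain ⟨c, rfl⟩ := factor hf hx hb
  obtain ⟨i, hi⟩ := hp.2 _ (h.2 hf c hb)
  rw [Polynomial.eval_mul, Polynomial.eval_comp, Polynomial.eval_add, Polynomial.eval_add,
    Polynomial.eval_X, Polynomial.eval_C, Polynomial.eval_one] at hi
  rcases mul_eq_zero.1 hi with h2 | h2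
  · refine ⟨i, ?_⟩
    rw [Polynomial.eval_mul, Polynomial.eval_add, Polynomial.eval_X, Polynomial.eval_one, h2,
      zero_mul]
  · refine ⟨i - κ, ?_⟩
    have h3 : (p.1 : ℂ) / p.2 - ((i - κ : ℤ) : ℂ) = (p.1 : ℂ) / p.2 - i + (κ : ℂ) := by
      push_cast
      ring
    rw [h3, Polynomial.eval_mul, h2, mul_zero]

theorem rw_shU (j : ℤ) {p : ℤ × ℤ} (h : RW f x p) : RW f x (shU j p) := by
  refine ⟨h.1, fun b hb => ?_⟩
  obtain ⟨i, hi⟩ := h.2 b hb
  refine ⟨i + j, ?_⟩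
  rw [quot_shU _ h.1]
  convert hi using 2
  push_cast
  ring

theorem rt_cases {p : ℤ × ℤ} (h : RT f x p) : p.1 = -p.2 ∨ RR f x p := by
  by_cases h1 : (p.1 : ℂ) / p.2 + 1 = 0
  · left
    have h2 : ((p.2 : ℤ) : ℂ) ≠ 0 := by exact_mod_cast h.1.ne'
    have h3 : ((p.1 : ℤ) : ℂ) = -p.2 := by
      field_simp at h1
      linear_combination h1
    exact_mod_cast h3
  · right
    refine ⟨h.1, fun c hc => ?_⟩
    have h2 := h.2 _ hc
    rw [Polynomial.eval_mul, Polynomial.eval_add, Polynomial.eval_X, Polynomial.eval_one] at h2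
    exact (mul_eq_zero.1 h2).resolve_left h1

theorem rr_rt (hf : f ≠ 0) (hx : aeval x f = 0) {p : ℤ × ℤ} (h : RR f x p) : RT f x p := by
  refine ⟨h.1, fun b hb => ?_⟩
  obtain ⟨c, rfl⟩ := factor hf hx hb
  rw [Polynomial.eval_mul, h.2 c hb, mul_zero]

theorem rt_neg (hf : f ≠ 0) (hx : aeval x f = 0) : RT f x (-1, 1) := by
  refine ⟨one_pos, fun b hb => ?_⟩
  have h1 : (((-1 : ℤ) : ℂ) / ((1 : ℤ) : ℂ)) = -1 := by norm_num
  simp only [h1]
  exact root_minus hf hx hb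

theorem rt_rw {p : ℤ × ℤ} (h : RT f x p) : RW f x p :=
  ⟨h.1, fun b hb => ⟨0, by simpa using h.2 b hb⟩⟩

end

/-- the reduced form at a point -/
def RedAt (f : MvPolynomial (Fin n) k) (K : Type) [Field K] [Algebra k K] (x : Fin n → K) :
    Prop :=
  ∃ S : Finset (ℤ × ℤ), (∀ p ∈ S, RR f x p) ∧
    fst' K * zeta (map (algebraMap k K) f) x ∈ ratRing K S

/-- the strong form at a point -/
def StrAt (f : MvPolynomial (Fin n) k) (K : Type) [Field K] [Algebra k K] (x : Fin n → K) :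
    Prop :=
  ∃ S : Finset (ℤ × ℤ), (∀ p ∈ S, RT f x p) ∧ zeta (map (algebraMap k K) f) x ∈ ratRing K S

/-- the monodromy form at a point -/
def WkAt (f : MvPolynomial (Fin n) k) (K : Type) [Field K] [Algebra k K] (x : Fin n → K) :
    Prop :=
  ∃ S : Finset (ℤ × ℤ), (∀ p ∈ S, RW f x p) ∧ zeta (map (algebraMap k K) f) x ∈ ratRing K S

/-- the strong form after a ring homomorphism -/
def LocAt (f : MvPolynomial (Fin n) k) (K : Type) [Field K] [Algebra k K] {R : Type} [CommRing R]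
    (ψ : MK K →+* R) (x : Fin n → K) : Prop :=
  ∃ S : Finset (ℤ × ℤ), (∀ p ∈ S, RT f x p) ∧
    PowerSeries.map ψ (zeta (map (algebraMap k K) f) x) ∈ rat (LR ψ) S

section
variable {K : Type} [Field K] [Algebra k K]

/-- the trivial cases -/
theorem zeta_triv (f : MvPolynomial (Fin n) k) (x : Fin n → K)
    (h : f = 0 ∨ aeval x f ≠ 0) : zeta (map (algebraMap k K) f) x = 0 := by
  have := czK k K
  rcases h with h | h
  · rw [h, map_zero, ← C_0]
    exact zeta_of_const 0 x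
  · refine zeta_of_ne _ x ?_
    rwa [aeval_map_algebraMap]

omit [Algebra k ℂ] in
theorem zeta0_zero (f : MvPolynomial (Fin n) k) (x : Fin n → K) :
    zeta0 (itr (map (algebraMap k K) f) 0) (W0i {pt x} 0) {1} =
      zeta (map (algebraMap k K) f) x := (zeta_eq _ _).symm

theorem unden {R : Type} [CommRing R] {u : Rˣ} {Z : PowerSeries R} {T : Set (ℤ × ℤ)}
    (hT : (-1, 1) ∈ T) (h : den u (-1, 1) * Z ∈ rat u T) : Z ∈ rat u T := by
  have h1 : Z = geoU u (-1) 1 * (den u (-1, 1) * Z) := by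
    have h2 := den_geo (u := u) (p := (-1, 1)) one_pos
    simp only at h2
    linear_combination (-Z) * h2
  rw [h1]
  exact (rat u _).mul_mem (geo_mem_rat (p := (-1, 1)) hT) h

theorem red_strong {f : MvPolynomial (Fin n) k} {x : Fin n → K} (h : RedAt f K x) :
    StrAt f K x := by
  classical
  by_cases h0 : f = 0 ∨ aeval x f ≠ 0
  · refine ⟨∅, by simp, ?_⟩
    rw [zeta_triv f x h0]
    exact (ratRing K _).zero_mem
  push Not at h0
  obtain ⟨hf, hx⟩ := h0
  obtain ⟨S, hS, hz⟩ := h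
  refine ⟨insert (-1, 1) S, ?_, ?_⟩
  · intro p hp
    rcases Finset.mem_insert.1 hp with rfl | hp
    · exact rt_neg hf hx
    · exact rr_rt hf hx (hS p hp)
  · rw [fst_eq] at hz
    rw [ratRing_eq]
    refine unden (by simp) (rat_mono ?_ hz)
    intro p hp
    simp only [Finset.coe_insert]
    exact Or.inr hp

variable {N₁ N₂ κ : ℕ} {f : MvPolynomial (Fin n) k} {x : Fin n → K}

theorem rec_id (f : MvPolynomial (Fin n) k) (x : Fin n → K) : Rec (Lu K) fun j =>
    zeta0 (itr (map (algebraMap k K) f) j) (W0i {pt x} j) {1} := by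
  have := czK k K
  have hr := rec_zeta (RingHom.id (MK K)) (map (algebraMap k K) f) (constr_pt x)
    (ce_good good_one : CE ({1} : Set (AlgebraicClosure K)))
  rw [LR_id] at hr
  simp only [PowerSeries.map_id] at hr
  exact hr

/-- **Descent, reduced form.** -/
theorem red_descent {T₁ : MvPolynomial (Fin N₁) k} {T₂ : MvPolynomial (Fin N₂) k}
    {P₁ : Fin N₁ → K} {P₂ : Fin N₂ → K} (r1 : Rel f κ T₁ x P₁) (r2 : Rel f (κ + 1) T₂ x P₂)
    (h1 : RedAt T₁ K P₁) (h2 : RedAt T₂ K P₂) : RedAt f K x := by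
  have := czK k K
  by_cases h0 : f = 0 ∨ aeval x f ≠ 0
  · refine ⟨∅, by simp, ?_⟩
    rw [zeta_triv f x h0, mul_zero]
    exact (ratRing K _).zero_mem
  push Not at h0
  obtain ⟨hf, hx⟩ := h0
  obtain ⟨S1, a1, b1⟩ := h1
  obtain ⟨S2, a2, b2⟩ := h2
  rw [r1.1, fst_eq, ratRing_eq] at b1
  rw [r2.1, fst_eq, ratRing_eq] at b2
  have h3 := coreA κ (rec_id f x) (T := {p | RR f x p})
    (fun p hp => ⟨(a1 p hp).1, r1.rr hf (a1 p hp)⟩)
    (fun p hp => ⟨(a2 p hp).1, r2.rr hf (a2 p hp)⟩) b1 b2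
  obtain ⟨T, hT, h4⟩ := exists_finset h3
  refine ⟨T, hT, ?_⟩
  rw [fst_eq, ratRing_eq, ← zeta0_zero]
  exact h4

/-- **Descent, monodromy form.** -/
theorem wk_descent {T₁ : MvPolynomial (Fin N₁) k} {T₂ : MvPolynomial (Fin N₂) k}
    {P₁ : Fin N₁ → K} {P₂ : Fin N₂ → K} (r1 : Rel f κ T₁ x P₁) (r2 : Rel f (κ + 1) T₂ x P₂)
    (h1 : WkAt T₁ K P₁) (h2 : WkAt T₂ K P₂) : WkAt f K x := by
  classical
  have := czK k K
  by_cases h0 : f = 0 ∨ aeval x f ≠ 0
  · refine ⟨∅, by simp, ?_⟩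
    rw [zeta_triv f x h0]
    exact (ratRing K _).zero_mem
  push Not at h0
  obtain ⟨hf, hx⟩ := h0
  obtain ⟨S1, a1, b1⟩ := h1
  obtain ⟨S2, a2, b2⟩ := h2
  rw [r1.1, ratRing_eq] at b1
  rw [r2.1, ratRing_eq] at b2
  have h3 := coreA κ (rec_id f x) (T := {p | RW f x p})
    (fun p hp => ⟨(a1 p hp).1, rw_shU _ (r1.rw hf hx (a1 p hp))⟩)
    (fun p hp => ⟨(a2 p hp).1, rw_shU _ (r2.rw hf hx (a2 p hp))⟩)
    ((rat (Lu K) _).mul_mem (den_mem_rat _ _) b1) ((rat (Lu K) _).mul_mem (den_mem_rat _ _) b2)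
  obtain ⟨T, hT, h4⟩ := exists_finset h3
  refine ⟨insert (-1, 1) T, ?_, ?_⟩
  · intro p hp
    rcases Finset.mem_insert.1 hp with rfl | hp
    · exact rt_rw (rt_neg hf hx)
    · exact hT p hp
  · rw [ratRing_eq]
    refine unden (by simp) (rat_mono ?_ (zeta0_zero f x ▸ h4))
    intro p hp
    simp only [Finset.coe_insert]
    exact Or.inr hp

/-- **Descent, localised form.** -/
theorem loc_descent {R : Type} [CommRing R] {ψ : MK K →+* R} (hψ : Sep (LR ψ)) {N : ℕ → ℕ}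
    {T : ∀ i, MvPolynomial (Fin (N i)) k} {P : ∀ i, Fin (N i) → K}
    (r : ∀ i, Rel f (κ + i) (T i) x (P i)) (h : ∀ i < 4, LocAt (T i) K ψ (P i)) :
    LocAt f K ψ x := by
  classical
  have := czK k K
  by_cases h0 : f = 0 ∨ aeval x f ≠ 0
  · refine ⟨∅, by simp, ?_⟩
    rw [zeta_triv f x h0, map_zero]
    exact (rat (LR ψ) _).zero_mem
  push Not at h0
  obtain ⟨hf, hx⟩ := h0
  have h' : ∀ i : ℕ, ∃ S : Finset (ℤ × ℤ), i < 4 →
      (∀ p ∈ S, RT (T i) (P i) p) ∧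
      PowerSeries.map ψ (zeta0 (itr (map (algebraMap k K) f) (κ + i)) (W0i {pt x} (κ + i)) {1}) ∈
        rat (LR ψ) S := by
    intro i
    by_cases hi : i < 4
    · obtain ⟨S, a, b⟩ := h i hi
      rw [(r i).1] at b
      exact ⟨S, fun _ => ⟨a, b⟩⟩
    · exact ⟨∅, fun h => absurd h hi⟩
  choose S hS using h'
  have h3 := coreB hψ κ (rec_zeta ψ (map (algebraMap k K) f) (constr_pt x)
    (ce_good good_one : CE ({1} : Set (AlgebraicClosure K))))
    (G := {p | RR f x p}) (fun i => (S i : Set (ℤ × ℤ)))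
    (fun i hi p hp => ⟨((hS i hi).1 p hp).1, (rt_cases ((hS i hi).1 p hp)).imp id
      fun h => (r i).rr hf h⟩) (fun i hi => (hS i hi).2)
  obtain ⟨T, hT, h4⟩ := exists_finset h3
  refine ⟨insert (-1, 1) T, ?_, ?_⟩
  · intro p hp
    rcases Finset.mem_insert.1 hp with rfl | hp
    · exact rt_neg hf hx
    · exact rr_rt hf hx (hT p hp)
  · refine unden (by simp) (rat_mono ?_ (zeta0_zero f x ▸ h4))
    intro p hp
    simp only [Finset.coe_insert]
    exact Or.inr hp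

/-- polynomials in no variables -/
theorem zeta_zero_vars (f : MvPolynomial (Fin 0) k) (x : Fin 0 → K) :
    zeta (map (algebraMap k K) f) x = 0 := by
  have := czK k K
  have h : f = C (coeff 0 f) := eq_C_of_isEmpty f
  rw [h, map_C]
  exact zeta_of_const _ x

end

end

end Pool.Agent.J4.H18.TT
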