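import Pool.Agent.Y366.MS.OneA
import Pool.Agent.Y971.MS.One
import Pool.Agent.Y812.MS.Two
import Pool.Agent.Y229.MS.Step

/-!
# Jets of `f + y z` with origins in `y = z = 0`
-/

set_option autoImplicit false

namespace Pool.Agent.J4.H18.TT

open MvPolynomial hiding psum
open Pool.Agent.W428.MOT Pool.Agent.Y229.MS
open Pool.Agent.W375.MG (JetG zetaG Good ratRing_mono)
open Pool.Agent.Y971.MS (constr_jet aeval_addyz)

section
variable {K : Type} [Field K] {n : ℕ}

theorem one' : TaskONE := Pool.Agent.Y971.MS.one Pool.Agent.Y366.MS.onea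

theorem two' : TaskTWO := Pool.Agent.Y812.MS.two

/-- the origins `(x, 0, 0)`, `x ∈ W` -/
def W0 (W : Set (Pt K (Fin n))) : Set (Pt K (Fin (n + 2))) :=
  {w | (fun i => w (Fin.castAdd 2 i)) ∈ W ∧ w (Fin.natAdd n 0) = 0 ∧ w (Fin.natAdd n 1) = 0}

theorem constr_W0 {W : Set (Pt K (Fin n))} (hW : Constr W) : Constr (W0 W) :=
  (hW.preimage (fun (w : Pt K (Fin (n + 2))) i => w (Fin.castAdd 2 i)) fun _ => IsPF.coord _).and
    ((Constr.eqz (IsPF.coord _)).and (Constr.eqz (IsPF.coord _)))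

/-- exchange of `y` and `z` -/
def sw (N : ℕ) (z : Pt K (Fin (n + 2) × Fin (N + 1))) : Pt K (Fin (n + 2) × Fin (N + 1)) :=
  fun p => Fin.addCases (fun i => z (Fin.castAdd 2 i, p.2)) (fun a => z (Fin.natAdd n a.rev, p.2))
    p.1

theorem sw_l (N : ℕ) (z : Pt K (Fin (n + 2) × Fin (N + 1))) (i : Fin n) (j : Fin (N + 1)) :
    sw N z (Fin.castAdd 2 i, j) = z (Fin.castAdd 2 i, j) := by
  simp [sw]

theorem sw_r (N : ℕ) (z : Pt K (Fin (n + 2) × Fin (N + 1))) (a : Fin 2) (j : Fin (N + 1)) :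
    sw N z (Fin.natAdd n a, j) = z (Fin.natAdd n a.rev, j) := by
  simp [sw]

theorem sw_sw (N : ℕ) (z : Pt K (Fin (n + 2) × Fin (N + 1))) : sw N (sw N z) = z := by
  funext p
  obtain ⟨i, j⟩ := p
  refine Fin.addCases (fun i => ?_) (fun a => ?_) i
  · rw [sw_l, sw_l]
  · rw [sw_r, sw_r, Fin.rev_rev]

theorem arc_sw_l (N : ℕ) (z : Pt K (Fin (n + 2) × Fin (N + 1))) (i : Fin n) :
    arc (sw N z) (Fin.castAdd 2 i) = arc z (Fin.castAdd 2 i) := by
  ext j
  unfold arc
  simp only [PowerSeries.coeff_mk]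
  split_ifs
  · exact sw_l N z i _
  · rfl

theorem arc_sw_r (N : ℕ) (z : Pt K (Fin (n + 2) × Fin (N + 1))) (a : Fin 2) :
    arc (sw N z) (Fin.natAdd n a) = arc z (Fin.natAdd n a.rev) := by
  ext j
  unfold arc
  simp only [PowerSeries.coeff_mk]
  split_ifs
  · exact sw_r N z a _
  · rfl

theorem aeval_sw (N : ℕ) (z : Pt K (Fin (n + 2) × Fin (N + 1))) (f : MvPolynomial (Fin n) K) :
    aeval (arc (sw N z)) (addyz f) = aeval (arc z) (addyz f) := by
  rw [aeval_addyz, aeval_addyz, arc_sw_r, arc_sw_r]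
  simp only [arc_sw_l]
  rw [show (0 : Fin 2).rev = 1 from rfl, show (1 : Fin 2).rev = 0 from rfl, mul_comm (arc z _)]

theorem coeff_zero' {a N : ℕ} (z : Pt K (Fin a × Fin (N + 1))) (P : MvPolynomial (Fin a) K) :
    PowerSeries.coeff 0 (aeval (arc z) P) = aeval (fun i => z (i, 0)) P := by
  rw [PowerSeries.coeff_zero_eq_constantCoeff_apply]
  induction P using MvPolynomial.induction_on with
  | C c =>
    rw [MvPolynomial.algHom_C, MvPolynomial.algHom_C, PowerSeries.algebraMap_apply,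
      PowerSeries.constantCoeff_C]
  | add p q hp hq => rw [map_add, map_add, map_add, hp, hq]
  | mul_X p i hp =>
    rw [map_mul, map_mul, map_mul, hp, aeval_X, aeval_X,
      ← PowerSeries.coeff_zero_eq_constantCoeff_apply]
    congr 1
    unfold arc
    rw [PowerSeries.coeff_mk, dif_pos (Nat.succ_pos N)]
    rfl

variable {R : Type} [CommRing R]

/-- **The class of the jets of `f + y z` at the points `(x, 0, 0)`.** -/
theorem one0 (M : Meas K R) (f : MvPolynomial (Fin n) K) (W : Set (Pt K (Fin n)))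
    (E : Set (AlgebraicClosure K)) (hW : Constr W) (hE : CE E) (N : ℕ) (hN : 1 ≤ N) :
    M.χ _ (JetG (addyz f) (W0 W) E N) = M.χ _ (JetG f W E N) * M.L ^ (N + 1) +
      M.χ (Fin 1) {a | a 0 ∈ E} * (M.L - 1) * M.L ^ N *
        ∑ i ∈ Finset.range (N + 1), if i < 2 then 0 else M.χ _ (Tl f W i N) := by
  classical
  set J := JetG (addyz f) (Wyz W) E N with hJ
  have cJ : Constr J := constr_jet (addyz f) (constr_Wyz hW) hE N
  set W' : Set (Pt K (Fin n)) := {w | w ∈ W ∧ aeval w f = 0} with hW'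
  have cW' : Constr W' := hW.and (Constr.eqz (IsPF.poly f))
  -- the three parts
  set P : Fin 3 → Set (Pt K (Fin (n + 2) × Fin (N + 1))) :=
    ![{z | z (Fin.natAdd n 0, 0) ≠ 0}, {z | z (Fin.natAdd n 0, 0) = 0 ∧ z (Fin.natAdd n 1, 0) ≠ 0},
      {z | z (Fin.natAdd n 0, 0) = 0 ∧ z (Fin.natAdd n 1, 0) = 0}] with hP
  have c0 : Constr {z : Pt K (Fin (n + 2) × Fin (N + 1)) | z (Fin.natAdd n 0, 0) = 0} :=
    Constr.eqz (IsPF.coord _)
  have c1 : Constr {z : Pt K (Fin (n + 2) × Fin (N + 1)) | z (Fin.natAdd n 1, 0) = 0} :=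
    Constr.eqz (IsPF.coord _)
  have hcov := Pool.Agent.W749.MT.χ_cover M J P cJ (by
      intro a
      fin_cases a
      · exact c0.not
      · exact c0.and c1.not
      · exact c0.and c1)
    (by
      intro a b hab
      rw [Set.disjoint_left]
      fin_cases a <;> fin_cases b <;> simp_all)
    (by
      intro z _
      by_cases h0 : z (Fin.natAdd n 0, 0) = 0
      · by_cases h1 : z (Fin.natAdd n 1, 0) = 0
        · exact ⟨2, h0, h1⟩
        · exact ⟨1, h0, h1⟩
      · exact ⟨0, h0⟩)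
  rw [Fin.sum_univ_three] at hcov
  have e0 : J ∩ P 0 = J ∩ Yi n 0 N := by
    ext z
    refine and_congr_right fun _ => ?_
    show z (Fin.natAdd n 0, 0) ≠ 0 ↔ _
    unfold Yi
    simp only [Set.mem_ofPred_eq, Nat.not_lt_zero, IsEmpty.forall_iff, implies_true, true_and]
    constructor
    · intro h j hj
      have : j = 0 := Fin.ext hj
      rw [this]
      exact h
    · intro h
      exact h 0 rfl
  have e2 : J ∩ P 2 = JetG (addyz f) (W0 W) E N := by
    ext z
    constructor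
    · rintro ⟨⟨h1, h2⟩, h3, h4⟩
      exact ⟨⟨h1, h3, h4⟩, h2⟩
    · rintro ⟨⟨h1, h3, h4⟩, h2⟩
      exact ⟨⟨h1, h2⟩, h3, h4⟩
  have cY : ∀ {V : Set (Pt K (Fin n))}, Constr V →
      Constr (JetG (addyz f) (Wyz V) E N ∩ Yi n 0 N) := by
    intro V hV
    refine (constr_jet (addyz f) (constr_Wyz hV) hE N).and ?_
    unfold Yi
    exact (Constr.all fun j => Constr.imp' fun _ => Constr.eqz (IsPF.coord _)).and
      (Constr.all fun j => Constr.imp' fun _ => (Constr.eqz (IsPF.coord _)).not)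
  have pf : ∀ p, IsPF (fun z : Pt K (Fin (n + 2) × Fin (N + 1)) => sw N z p) := by
    rintro ⟨i, j⟩
    refine Fin.addCases (fun i => ?_) (fun a => ?_) i
    · simp only [sw_l]
      exact IsPF.coord _
    · simp only [sw_r]
      exact IsPF.coord _
  have e1 : M.χ _ (J ∩ P 1) = M.χ _ (JetG (addyz f) (Wyz W') E N ∩ Yi n 0 N) := by
    refine M.iso _ _ (cJ.and (c0.and c1.not)) (cY cW') (sw N) (sw N) (regularOn_poly pf _)
      (regularOn_poly pf _) ?_ ?_ (fun z _ => sw_sw N z) (fun z _ => sw_sw N z)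
    · rintro z ⟨⟨h1, h2, h3⟩, h4, h5⟩
      have h6 := h2 0 (by omega)
      rw [coeff_zero'] at h6
      have h7 : aeval (fun i => z (i, 0)) (addyz f) =
          aeval (fun i => z (Fin.castAdd 2 i, 0)) f + z (Fin.natAdd n 0, 0) *
            z (Fin.natAdd n 1, 0) := aeval_addyz _ f
      rw [h7, h4, zero_mul, add_zero] at h6
      refine ⟨⟨⟨?_, ?_⟩, ?_, ?_⟩, ?_, ?_⟩
      · simp only [sw_l]
        exact h1
      · simp only [sw_l]
        exact h6
      · intro j hj
        rw [aeval_sw]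
        exact h2 j hj
      · rw [aeval_sw]
        exact h3
      · intro j hj
        exact absurd hj (Nat.not_lt_zero _)
      · intro j hj
        have : j = 0 := Fin.ext hj
        rw [this, sw_r]
        exact h5
    · rintro z ⟨⟨⟨h1, h1'⟩, h2, h3⟩, h4, h5⟩
      have h6 := h2 0 (by omega)
      rw [coeff_zero'] at h6
      have h7 : aeval (fun i => z (i, 0)) (addyz f) =
          aeval (fun i => z (Fin.castAdd 2 i, 0)) f + z (Fin.natAdd n 0, 0) *
            z (Fin.natAdd n 1, 0) := aeval_addyz _ f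
      have h1'' : aeval (fun i => z (Fin.castAdd 2 i, 0)) f = 0 := h1'
      rw [h7, h1'', zero_add] at h6
      have h8 : z (Fin.natAdd n 0, 0) ≠ 0 := h5 0 rfl
      have h9 : z (Fin.natAdd n 1, 0) = 0 := (mul_eq_zero.1 h6).resolve_left h8
      refine ⟨⟨?_, ?_, ?_⟩, ?_, ?_⟩
      · show (fun i => sw N z (Fin.castAdd 2 i, 0)) ∈ W
        simp only [sw_l]
        exact h1
      · intro j hj
        rw [aeval_sw]
        exact h2 j hj
      · rw [aeval_sw]
        exact h3
      · rw [sw_r]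
        exact h9
      · show sw N z (Fin.natAdd n 1, 0) ≠ 0
        rw [sw_r]
        exact h8
  have e3 : Tl f W' 0 N = Tl f W 1 N := by
    ext z
    simp only [Tl, Set.mem_ofPred_eq, Nat.not_lt_zero, IsEmpty.forall_iff, implies_true, and_true,
      Nat.lt_one_iff, forall_eq]
    rw [coeff_zero']
    exact Iff.rfl
  rw [e0, e1, e2, Pool.Agent.Y366.MS.onea K R M f W E hW hE 0 N (Nat.zero_le _),
    Pool.Agent.Y366.MS.onea K R M f W' E cW' hE 0 N (Nat.zero_le _), e3,
    one' K R M f W E hW hE N] at hcov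
  obtain ⟨m, rfl⟩ : ∃ m, N = m + 1 := ⟨N - 1, by omega⟩
  rw [Finset.sum_range_succ', Finset.sum_range_succ'] at hcov ⊢
  have e4 : ∀ i, (if i + 1 + 1 < 2 then 0 else M.χ _ (Tl f W (i + 1 + 1) (m + 1))) =
      M.χ _ (Tl f W (i + 1 + 1) (m + 1)) := fun i => if_neg (by omega)
  simp only [e4]
  rw [if_pos (by omega), if_pos (by omega), add_zero, add_zero]
  linear_combination -hcov

/-! ### The relations -/

/-- the zeta function without its constant term -/
noncomputable def zs0 (M : Meas K R) (Y : R) (f : MvPolynomial (Fin n) K) (W : Set (Pt K (Fin n)))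
    (E : Set (AlgebraicClosure K)) : PowerSeries R :=
  PowerSeries.mk fun N => if N = 0 then 0 else M.χ _ (JetG f W E N) * Y ^ (n * N)

/-- the tails, from `2` on -/
noncomputable def phi0 (M : Meas K R) (Y : R) (f : MvPolynomial (Fin n) K)
    (W : Set (Pt K (Fin n))) : PowerSeries R :=
  PowerSeries.mk fun i => if i < 2 then 0 else M.χ _ (Tl f W i i) * Y ^ (n * i)

theorem psum_phi0 (M : Meas K R) (Y : R) (hL : M.L * Y = 1) (f : MvPolynomial (Fin n) K)
    {W : Set (Pt K (Fin n))} (hW : Constr W) (N : ℕ) :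
    ∑ i ∈ Finset.range (N + 1), PowerSeries.coeff i (phi0 M Y f W) =
      (∑ i ∈ Finset.range (N + 1), if i < 2 then 0 else M.χ _ (Tl f W i N)) * Y ^ (n * N) := by
  rw [Finset.sum_mul]
  refine Finset.sum_congr rfl fun i hi => ?_
  rw [phi0, PowerSeries.coeff_mk]
  split_ifs
  · rw [zero_mul]
  · rw [phi_level' two' M Y hL f W hW i N (Nat.lt_succ_iff.1 (Finset.mem_range.1 hi))]

/-- **The relation of the zeta functions.** -/
theorem rel1 (M : Meas K R) (Y : R) (hL : M.L * Y = 1)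
    (f : MvPolynomial (Fin n) K) {W : Set (Pt K (Fin n))} (hW : Constr W)
    {E : Set (AlgebraicClosure K)} (hE : CE E) :
    PowerSeries.rescale M.L (zs0 M Y (addyz f) (W0 W) E) =
      PowerSeries.C M.L * zs0 M Y f W E +
        PowerSeries.C (M.χ (Fin 1) {a | a 0 ∈ E} * (M.L - 1)) * psum (phi0 M Y f W) := by
  ext N
  rw [PowerSeries.coeff_rescale, map_add, PowerSeries.coeff_C_mul, PowerSeries.coeff_C_mul, zs0,
    zs0, psum, PowerSeries.coeff_mk, PowerSeries.coeff_mk, PowerSeries.coeff_mk]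
  by_cases hN : N = 0
  · subst hN
    rw [if_pos rfl, if_pos rfl, mul_zero, mul_zero, zero_add, zero_add, Finset.sum_range_one, phi0,
      PowerSeries.coeff_mk, if_pos (by omega), mul_zero]
  rw [if_neg hN, if_neg hN, one0 M f W E hW hE N (Nat.pos_of_ne_zero hN), psum_phi0 M Y hL f hW N]
  have h4 : M.L ^ N * Y ^ N = 1 := by rw [← mul_pow, hL, one_pow]
  have h5 : Y ^ ((n + 2) * N) = Y ^ (n * N) * (Y ^ N * Y ^ N) := by
    rw [← pow_add, ← pow_add]
    congr 1
    ring
  rw [h5, pow_succ]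
  set A := M.χ _ (JetG f W E N)
  set B := ∑ i ∈ Finset.range (N + 1), if i < 2 then 0 else M.χ _ (Tl f W i N)
  set e := M.χ (Fin 1) {a | a 0 ∈ E}
  linear_combination ((A * M.L + e * (M.L - 1) * B) * Y ^ (n * N) *
    (M.L ^ N * Y ^ N + 1)) * h4

/-- **The relation of the tails.** -/
theorem rel2 (M : Meas K R) (Y : R) (hL : M.L * Y = 1)
    (f : MvPolynomial (Fin n) K) {W : Set (Pt K (Fin n))} (hW : Constr W) :
    PowerSeries.rescale M.L (phi0 M Y (addyz f) (W0 W)) =
      PowerSeries.C M.L * PowerSeries.C M.L * phi0 M Y f W +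
        PowerSeries.C (M.L * (M.L - 1)) * (PowerSeries.X * psum (phi0 M Y f W)) := by
  ext N
  rw [PowerSeries.coeff_rescale, map_add, mul_assoc, PowerSeries.coeff_C_mul,
    PowerSeries.coeff_C_mul, PowerSeries.coeff_C_mul]
  rcases N with _ | N
  · rw [PowerSeries.coeff_zero_X_mul, mul_zero, add_zero, pow_zero, one_mul, phi0, phi0,
      PowerSeries.coeff_mk, PowerSeries.coeff_mk, if_pos (by omega), if_pos (by omega), mul_zero,
      mul_zero]
  · rw [PowerSeries.coeff_succ_X_mul]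
    rcases Nat.eq_zero_or_pos N with hN | hN
    · subst hN
      rw [psum, PowerSeries.coeff_mk, zero_add, Finset.sum_range_one, phi0, phi0,
        PowerSeries.coeff_mk, PowerSeries.coeff_mk, PowerSeries.coeff_mk, if_pos (by omega),
        if_pos (by omega), if_pos (by omega), mul_zero, mul_zero, mul_zero, mul_zero, add_zero]
    · rw [psum, PowerSeries.coeff_mk, psum_phi0 M Y hL f hW N, phi0, phi0, PowerSeries.coeff_mk,
        PowerSeries.coeff_mk, if_neg (by omega), if_neg (by omega),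
        phi_succ two' M Y hL (addyz f) (W0 W) (constr_W0 hW) N,
        one0 M f W {0} hW ce_zero N hN, chi_pt, phi_succ two' M Y hL f W hW N]
      have h4 : M.L ^ N * Y ^ N = 1 := by rw [← mul_pow, hL, one_pow]
      have h5 : Y ^ ((n + 2) * N) = Y ^ (n * N) * (Y ^ N * Y ^ N) := by
        rw [← pow_add, ← pow_add]
        congr 1
        ring
      rw [h5, pow_succ]
      set A := M.χ _ (JetG f W {0} N)
      set B := ∑ i ∈ Finset.range (N + 1), if i < 2 then 0 else M.χ _ (Tl f W i N)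
      linear_combination ((A * M.L + (M.L - 1) * B) * Y ^ (n * N) * M.L *
        (M.L ^ N * Y ^ N + 1)) * h4

end

/-! ### The descent -/

variable {K : Type} [Field K]

/-- the zeta function without its constant term -/
noncomputable def zeta0 {n : ℕ} (f : MvPolynomial (Fin n) K) (W : Set (Pt K (Fin n)))
    (E : Set (AlgebraicClosure K)) : PowerSeries (MK K) :=
  PowerSeries.mk fun N => if N = 0 then 0 else PowerSeries.coeff N (zetaG f W E)

open Pool.Agent.W63.MTFin (mapMeas geo_mul geo_mem X_mem C_mem L_mul)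

/-- **One step.** -/
theorem step0 [CharZero K] {n : ℕ} (f : MvPolynomial (Fin n) K)
    {W : Set (Pt K (Fin n))} (hW : Constr W) {E : Set (AlgebraicClosure K)} (hE : CE E)
    {S1 S2 : Set (ℤ × ℤ)} (hS1 : ∀ p ∈ S1, 0 < p.2) (hS2 : ∀ p ∈ S2, 0 < p.2)
    (hz1 : fst' K * zeta0 (addyz f) (W0 W) E ∈ ratRing K S1)
    (hz2 : fst' K * zeta0 (addyz (addyz f)) (W0 (W0 W)) E ∈ ratRing K S2) :
    fst' K * zeta0 f W E ∈ ratRing K (shn 1 S1 ∪ shn 1 (shn 1 S2)) := by
  obtain ⟨M₀, hM₀⟩ := Pool.Agent.W417.MT.K0.main K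
  set M := mapMeas M₀ (algebraMap (K0 K) (MK K)) with hM
  set Y : MK K := (((Lu K)⁻¹ : (MK K)ˣ) : MK K) with hY
  have hL : M.L * Y = 1 := L_mul hM₀
  have hML : M.L = ((Lu K : (MK K)ˣ) : MK K) := by
    have h2 : ((Lu K : (MK K)ˣ) : MK K) * Y = 1 := Units.mul_inv _
    calc M.L = M.L * (((Lu K : (MK K)ˣ) : MK K) * Y) := by rw [h2, mul_one]
      _ = (M.L * Y) * ((Lu K : (MK K)ˣ) : MK K) := by ring
      _ = _ := by rw [hL, one_mul]
  have hz : ∀ {a : ℕ} (g : MvPolynomial (Fin a) K) (V : Set (Pt K (Fin a))),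
      zeta0 g V E = zs0 M Y g V E := by
    intro a g V
    ext N
    rw [zeta0, zs0, PowerSeries.coeff_mk, PowerSeries.coeff_mk]
    split_ifs
    · rfl
    · rw [zetaG, PowerSeries.coeff_mk, zpow_neg, zpow_natCast, ← inv_pow,
        Units.val_pow_eq_pow_val, ← hM₀]
      rfl
  have r0 := rel1 M Y hL f hW hE
  have r1 := rel1 M Y hL (addyz f) (constr_W0 hW) hE
  have r2 := rel2 M Y hL f hW
  set e : MK K := M.χ (Fin 1) {a | a 0 ∈ E} * (M.L - 1) with he
  have hps := psum_mul (phi0 M Y f W)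
  have hps1 := psum_mul (phi0 M Y (addyz f) (W0 W))
  have key := elim M.L Y hL (zs0 M Y f W E) (zs0 M Y (addyz f) (W0 W) E)
    (zs0 M Y (addyz (addyz f)) (W0 (W0 W)) E) (PowerSeries.C e * phi0 M Y f W)
    (PowerSeries.C e * phi0 M Y (addyz f) (W0 W))
    (by
      rw [r0]
      linear_combination (PowerSeries.C e) * hps)
    (by
      rw [r1]
      linear_combination (PowerSeries.C e) * hps1)
    (by
      rw [map_mul, rescale_C', r2]
      rw [map_mul PowerSeries.C M.L (M.L - 1), map_sub PowerSeries.C M.L 1, map_one]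
      linear_combination (PowerSeries.C e * PowerSeries.C M.L * (PowerSeries.C M.L - 1) *
        PowerSeries.X) * hps)
  rw [hz] at hz1 hz2 ⊢
  unfold fst' at hz1 hz2 ⊢
  rw [← hY] at hz1 hz2 ⊢
  rw [key, hML]
  have m1 : PowerSeries.rescale ((Lu K : (MK K)ˣ) : MK K)
      ((1 - PowerSeries.C Y * PowerSeries.X) * zs0 M Y (addyz f) (W0 W) E) ∈
      ratRing K (shn 1 S1 ∪ shn 1 (shn 1 S2)) :=
    ratRing_mono Set.subset_union_left (rescale_mem hS1 hz1)
  have m2 : PowerSeries.rescale ((Lu K : (MK K)ˣ) : MK K)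
      (PowerSeries.rescale ((Lu K : (MK K)ˣ) : MK K)
        ((1 - PowerSeries.C Y * PowerSeries.X) * zs0 M Y (addyz (addyz f)) (W0 (W0 W)) E)) ∈
      ratRing K (shn 1 S1 ∪ shn 1 (shn 1 S2)) :=
    ratRing_mono Set.subset_union_right (rescale_mem (shn_pos hS2) (rescale_mem hS2 hz2))
  exact (ratRing K _).mul_mem (C_mem _ _) ((ratRing K _).sub_mem ((ratRing K _).mul_mem
    ((ratRing K _).add_mem ((ratRing K _).mul_mem (C_mem _ _) (C_mem _ _)) (C_mem _ _)) m1) m2)

/-- the origins `(x, 0, …, 0)` -/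
def W0i {n : ℕ} (W : Set (Pt K (Fin n))) : (j : ℕ) → Set (Pt K (Fin (n + 2 * j)))
  | 0 => W
  | j + 1 => W0 (W0i W j)

theorem constr_W0i {n : ℕ} {W : Set (Pt K (Fin n))} (hW : Constr W) :
    ∀ j : ℕ, Constr (W0i W j)
  | 0 => hW
  | j + 1 => constr_W0 (constr_W0i hW j)

/-- **Descent.** -/
theorem descend0 [CharZero K] {n : ℕ} (f : MvPolynomial (Fin n) K)
    {W : Set (Pt K (Fin n))} (hW : Constr W) {E : Set (AlgebraicClosure K)} (hE : CE E) :
    ∀ (κ : ℕ) (S1 S2 : Set (ℤ × ℤ)), (∀ p ∈ S1, 0 < p.2) → (∀ p ∈ S2, 0 < p.2) →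
      fst' K * zeta0 (itr f κ) (W0i W κ) E ∈ ratRing K S1 →
      fst' K * zeta0 (itr f (κ + 1)) (W0i W (κ + 1)) E ∈ ratRing K S2 →
      fst' K * zeta0 f W E ∈ ratRing K (shn κ S1 ∪ shn (κ + 1) S2) := by
  intro κ
  induction κ with
  | zero =>
    intro S1 S2 _ _ hz1 _
    refine ratRing_mono ?_ hz1
    intro p hp
    refine Or.inl ⟨p, hp, ?_⟩
    simp
  | succ κ ih =>
    intro S1 S2 hS1 hS2 hz1 hz2
    have h3 := step0 (itr f κ) (constr_W0i hW κ) hE hS1 hS2 hz1 hz2
    have h4 := ih (shn 1 S1 ∪ shn 1 (shn 1 S2)) S1 ?_ hS1 h3 hz1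
    · rw [shn_union, shn_shn, shn_shn, shn_shn] at h4
      refine ratRing_mono ?_ h4
      rintro p ((hp | hp) | hp)
      · exact Or.inl hp
      · right
        rw [show κ + (1 + 1) = κ + 1 + 1 by ring] at hp
        exact hp
      · exact Or.inl hp
    · rintro p (hp | hp)
      · exact shn_pos hS1 p hp
      · exact shn_pos (shn_pos hS2) p hp

end Pool.Agent.J4.H18.TT
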