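import Pool.Agent.J4.H18.TT.Zch
import Pool.Agent.J4.H25.MC.Core

/-!
# The recursion for the zeta functions at points
-/

set_option autoImplicit false

namespace Pool.Agent.J4.H18.TT

open MvPolynomial hiding psum
open Pool.Agent.W428.MOT Pool.Agent.Y229.MS
open Pool.Agent.W375.MG (JetG zetaG Good ratRing_mono)
open Pool.Agent.W63.MTFin (mapMeas geo_mul geo_mem X_mem C_mem L_mul)
open Pool.Agent.J4.H25.MC (den rat geoU Rec coreA coreB exists_finset Sep shU rat_mono geo_mem_rat den_geo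
  den_mem_rat)

variable {K : Type} [Field K]

/-- **One step, an exact formula.** -/
theorem step_eq [CharZero K] {n : ℕ} (f : MvPolynomial (Fin n) K)
    {W : Set (Pt K (Fin n))} (hW : Constr W) {E : Set (AlgebraicClosure K)} (hE : CE E) :
    fst' K * zeta0 f W E = PowerSeries.C ((((Lu K)⁻¹ : (MK K)ˣ) : MK K) ^ 3) *
      ((PowerSeries.C ((Lu K : (MK K)ˣ) : MK K) * PowerSeries.C ((Lu K : (MK K)ˣ) : MK K) +
          PowerSeries.C ((Lu K : (MK K)ˣ) : MK K)) *
        PowerSeries.rescale ((Lu K : (MK K)ˣ) : MK K) (fst' K * zeta0 (addyz f) (W0 W) E) -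
        PowerSeries.rescale ((Lu K : (MK K)ˣ) : MK K)
          (PowerSeries.rescale ((Lu K : (MK K)ˣ) : MK K)
            (fst' K * zeta0 (addyz (addyz f)) (W0 (W0 W)) E))) := by
  obtain ⟨M₀, hM₀⟩ := Pool.Agent.W417.MT.K0.main K
  set M := mapMeas M₀ (algebraMap (K0 K) (MK K)) with hM
  set Y : MK K := (((Lu K)⁻¹ : (MK K)ˣ) : MK K) with hY
  have hL : M.L * Y = 1 := L_mul hM₀
  have hML : M.L = ((Lu K : (MK K)ˣ) : MK K) := by
    have h2 : ((Lu K : (MK K)ˣ) : MK K) * Y = 1 := Units.mul_inv _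
    calc M.L = M.L * (((Lu K : (MK K)ˣ) : MK K) * Y) := by rw [h2, mul_one]
      _ = (M.L * Y) * ((Lu K : (MK K)ˣ) : MK K) := by ring
      _ = _ := by rw [hL, one_mul]
  have hz : ∀ {a : ℕ} (g : MvPolynomial (Fin a) K) (V : Set (Pt K (Fin a))),
      zeta0 g V E = zs0 M Y g V E := by
    intro a g V
    ext N
    rw [zeta0, zs0, PowerSeries.coeff_mk, PowerSeries.coeff_mk]
    split_ifs
    · rfl
    · rw [zetaG, PowerSeries.coeff_mk, zpow_neg, zpow_natCast, ← inv_pow,
        Units.val_pow_eq_pow_val, ← hM₀]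
      rfl
  have r0 := rel1 M Y hL f hW hE
  have r1 := rel1 M Y hL (addyz f) (constr_W0 hW) hE
  have r2 := rel2 M Y hL f hW
  set e : MK K := M.χ (Fin 1) {a | a 0 ∈ E} * (M.L - 1) with he
  have hps := psum_mul (phi0 M Y f W)
  have hps1 := psum_mul (phi0 M Y (addyz f) (W0 W))
  have key := elim M.L Y hL (zs0 M Y f W E) (zs0 M Y (addyz f) (W0 W) E)
    (zs0 M Y (addyz (addyz f)) (W0 (W0 W)) E) (PowerSeries.C e * phi0 M Y f W)
    (PowerSeries.C e * phi0 M Y (addyz f) (W0 W))
    (by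
      rw [r0]
      linear_combination (PowerSeries.C e) * hps)
    (by
      rw [r1]
      linear_combination (PowerSeries.C e) * hps1)
    (by
      rw [map_mul, rescale_C', r2]
      rw [map_mul PowerSeries.C M.L (M.L - 1), map_sub PowerSeries.C M.L 1, map_one]
      linear_combination (PowerSeries.C e * PowerSeries.C M.L * (PowerSeries.C M.L - 1) *
        PowerSeries.X) * hps)
  rw [hz, hz, hz]
  unfold fst'
  rw [← hY, ← hML]
  exact key

section
variable {R : Type} [CommRing R]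

/-- the image of `𝕃` -/
noncomputable def LR (ψ : MK K →+* R) : Rˣ := Units.map (ψ : MK K →* R) (Lu K)

theorem map_fst (ψ : MK K →+* R) : PowerSeries.map ψ (fst' K) = den (LR ψ) (-1, 1) := by
  unfold fst' den
  have h1 : (((LR ψ) ^ (-1 : ℤ) : Rˣ) : R) = ψ (((Lu K)⁻¹ : (MK K)ˣ) : MK K) := by
    rw [zpow_neg_one]
    rfl
  have h2 : (1 : ℤ).toNat = 1 := rfl
  rw [map_sub, map_one, map_mul, PowerSeries.map_C, PowerSeries.map_X]
  simp only
  rw [h1, h2, pow_one]

theorem map_fst_mul (ψ : MK K →+* R) (F : PowerSeries (MK K)) :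
    PowerSeries.map ψ (fst' K * F) = den (LR ψ) (-1, 1) * PowerSeries.map ψ F := by
  rw [map_mul, map_fst]

theorem map_rescale (ψ : MK K →+* R) (a : MK K) (F : PowerSeries (MK K)) :
    PowerSeries.map ψ (PowerSeries.rescale a F) =
      PowerSeries.rescale (ψ a) (PowerSeries.map ψ F) := by
  ext N
  rw [PowerSeries.coeff_map, PowerSeries.coeff_rescale, PowerSeries.coeff_rescale,
    PowerSeries.coeff_map, map_mul, map_pow]

/-- the recursion -/
theorem rec_zeta [CharZero K] (ψ : MK K →+* R) {n : ℕ} (f : MvPolynomial (Fin n) K)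
    {W : Set (Pt K (Fin n))} (hW : Constr W) {E : Set (AlgebraicClosure K)} (hE : CE E) :
    Rec (LR ψ) fun j => PowerSeries.map ψ (zeta0 (itr f j) (W0i W j) E) := by
  intro j
  have h2 := congrArg (PowerSeries.map ψ) (step_eq (itr f j) (constr_W0i hW j) hE)
  rw [map_fst_mul, map_mul, map_sub, map_mul, map_rescale, map_rescale, map_rescale, map_fst_mul,
    map_fst_mul, map_add, map_mul, PowerSeries.map_C, PowerSeries.map_C, map_pow] at h2
  exact h2

theorem LR_id : LR (RingHom.id (MK K)) = Lu K := by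
  ext
  rfl

theorem ratRing_eq (S : Set (ℤ × ℤ)) : ratRing K S = rat (Lu K) S := rfl

theorem fst_eq : fst' K = den (Lu K) (-1, 1) := by
  have h := map_fst (K := K) (RingHom.id (MK K))
  rw [PowerSeries.map_id, LR_id] at h
  exact h

end

end Pool.Agent.J4.H18.TT
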