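import Pool.Agent.J4.H18.TT.Rc

/-!
# The trilinear form of a polynomial
-/

set_option autoImplicit false

namespace Pool.Agent.J4.H18.TT

open MvPolynomial hiding psum
open Pool.Agent.W428.MOT Pool.Agent.Y229.MS
open Pool.Agent.W375.MG (JetG zetaG Good good_one)
open Pool.Agent.J4.H18.TT.DM

/-- The trilinear form `∑ t_{i j l} x_i y_j z_l`; the variables are `x_1, …, x_a, y_1, …, y_b, z_1, …, z_c`. -/
noncomputable def tri {k : Type} [Field k] {a b c : ℕ} (t : Fin a → Fin b → Fin c → k) :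
    MvPolynomial (Fin (a + (b + c))) k :=
  ∑ i, ∑ j, ∑ l, C (t i j l) * (X (Fin.castAdd (b + c) i) * X (Fin.natAdd a (Fin.castAdd c j)) *
    X (Fin.natAdd a (Fin.natAdd b l)))

section
variable {k : Type} [Field k] {a b c : ℕ}

/-- the trilinear forms -/
def IsTri (a b c : ℕ) (T : MvPolynomial (Fin (a + (b + c))) k) : Prop :=
  ∃ t : Fin a → Fin b → Fin c → k, T = tri t

theorem IsTri.add {T T' : MvPolynomial (Fin (a + (b + c))) k} (h : IsTri a b c T)
    (h' : IsTri a b c T') : IsTri a b c (T + T') := by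
  obtain ⟨t, rfl⟩ := h
  obtain ⟨t', rfl⟩ := h'
  refine ⟨t + t', ?_⟩
  unfold tri
  simp only [← Finset.sum_add_distrib]
  refine Finset.sum_congr rfl fun i _ => Finset.sum_congr rfl fun j _ =>
    Finset.sum_congr rfl fun l _ => ?_
  rw [Pi.add_apply, Pi.add_apply, Pi.add_apply, map_add, add_mul]

theorem IsTri.mulC {T : MvPolynomial (Fin (a + (b + c))) k} (h : IsTri a b c T) (r : k) :
    IsTri a b c (C r * T) := by
  obtain ⟨t, rfl⟩ := h
  refine ⟨fun i j l => r * t i j l, ?_⟩
  unfold tri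
  simp only [Finset.mul_sum, map_mul, mul_assoc]

theorem IsTri.neg {T : MvPolynomial (Fin (a + (b + c))) k} (h : IsTri a b c T) :
    IsTri a b c (-T) := by
  have h1 := h.mulC (-1)
  rwa [map_neg, map_one, neg_one_mul] at h1

theorem IsTri.sub {T T' : MvPolynomial (Fin (a + (b + c))) k} (h : IsTri a b c T)
    (h' : IsTri a b c T') : IsTri a b c (T - T') := by
  rw [sub_eq_add_neg]
  exact h.add h'.neg

theorem IsTri.zero : IsTri a b c (0 : MvPolynomial (Fin (a + (b + c))) k) := by
  refine ⟨fun _ _ _ => 0, ?_⟩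
  unfold tri
  simp

theorem IsTri.sum {ι : Type} (s : Finset ι) (F : ι → MvPolynomial (Fin (a + (b + c))) k)
    (h : ∀ i ∈ s, IsTri a b c (F i)) : IsTri a b c (∑ i ∈ s, F i) := by
  classical
  induction s using Finset.induction_on with
  | empty =>
    rw [Finset.sum_empty]
    exact IsTri.zero
  | insert i s hi ih =>
    rw [Finset.sum_insert hi]
    exact (h i (Finset.mem_insert_self _ _)).add
      (ih fun j hj => h j (Finset.mem_insert_of_mem hj))

theorem IsTri.mon (i : Fin a) (j : Fin b) (l : Fin c) :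
    IsTri a b c (X (Fin.castAdd (b + c) i) * X (Fin.natAdd a (Fin.castAdd c j)) *
      X (Fin.natAdd a (Fin.natAdd b l)) : MvPolynomial (Fin (a + (b + c))) k) := by
  classical
  refine ⟨fun i' j' l' => if i' = i then if j' = j then if l' = l then 1 else 0 else 0 else 0, ?_⟩
  unfold tri
  rw [Finset.sum_eq_single i, Finset.sum_eq_single j, Finset.sum_eq_single l]
  · simp
  · intro l' _ h
    simp [h]
  · intro h
    exact absurd (Finset.mem_univ _) h
  · intro j' _ h
    refine Finset.sum_eq_zero fun l' _ => ?_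
    simp [h]
  · intro h
    exact absurd (Finset.mem_univ _) h
  · intro i' _ h
    refine Finset.sum_eq_zero fun j' _ => Finset.sum_eq_zero fun l' _ => ?_
    simp [h]
  · intro h
    exact absurd (Finset.mem_univ _) h

end

section
variable {k : Type} [Field k] {n : ℕ} (κ : ℕ) (c0 : k) (c : Fin κ → k) (v : Fin κ → Fin n)
  (pr : Fin κ → Option (Fin κ))

/-- the variables -/
noncomputable def x3 (i : Fin n) : MvPolynomial (Fin (n + (κ + κ) + 3)) k :=
  X (Fin.castAdd 3 (Fin.castAdd (κ + κ) i))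

noncomputable def y3 (i : Fin κ) : MvPolynomial (Fin (n + (κ + κ) + 3)) k :=
  X (Fin.castAdd 3 (Fin.natAdd n (Fin.castAdd κ i)))

noncomputable def z3 (i : Fin κ) : MvPolynomial (Fin (n + (κ + κ) + 3)) k :=
  X (Fin.castAdd 3 (Fin.natAdd n (Fin.natAdd κ i)))

noncomputable def t3 (a : Fin 3) : MvPolynomial (Fin (n + (κ + κ) + 3)) k :=
  X (Fin.natAdd _ a)

/-- the homogenisation of `G3` -/
noncomputable def T3 : MvPolynomial (Fin (n + (κ + κ) + 3)) k :=
  C c0 * (t3 κ 0 * t3 κ 1 * t3 κ 2) + ∑ i, C (c i) * (t3 κ 0 * t3 κ 1 * z3 κ i) +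
    ∑ i, (t3 κ 0 * y3 κ i * z3 κ i - x3 κ (v i) * y3 κ i * (pr i).elim (t3 κ 2) (z3 κ))

/-- the three groups -/
def gr : Fin (n + (κ + κ)) → Fin 3 :=
  Fin.addCases (fun _ => 0) (Fin.addCases (fun _ => 1) (fun _ => 2))

theorem sg_x3 (i : Fin n) : sg (K := k) (gr κ) (x3 κ i) = x3 κ i * t3 κ 0 := by
  unfold x3 t3
  rw [sg_l, gr, Fin.addCases_left]

theorem sg_y3 (i : Fin κ) : sg (K := k) (gr (n := n) κ) (y3 κ i) = y3 κ i * t3 κ 1 := by
  unfold y3 t3
  rw [sg_l, gr, Fin.addCases_right, Fin.addCases_left]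

theorem sg_z3 (i : Fin κ) : sg (K := k) (gr (n := n) κ) (z3 κ i) = z3 κ i * t3 κ 2 := by
  unfold z3 t3
  rw [sg_l, gr, Fin.addCases_right, Fin.addCases_right]

theorem sg_t3 (a : Fin 3) : sg (K := k) (gr (n := n) κ) (t3 κ a) = t3 κ a := by
  unfold t3
  rw [sg_r]

theorem sg_T3 : sg (gr κ) (T3 κ c0 c v pr) =
    tau k _ 3 * rename (Fin.castAdd 3) (G3 κ c0 c v pr) := by
  have ht : tau k (n + (κ + κ)) 3 = t3 κ 0 * t3 κ 1 * t3 κ 2 := by
    unfold tau t3
    rw [Fin.prod_univ_three]
  have rx : ∀ i, rename (Fin.castAdd 3) (xx (k := k) κ (n := n) i) = x3 κ i := by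
    intro i
    unfold xx x3
    rw [rename_X]
  have ry : ∀ i, rename (Fin.castAdd 3) (yy (k := k) κ (n := n) i) = y3 κ i := by
    intro i
    unfold yy y3
    rw [rename_X]
  have rz : ∀ i, rename (Fin.castAdd 3) (zz (k := k) κ (n := n) i) = z3 κ i := by
    intro i
    unfold zz z3
    rw [rename_X]
  rw [ht]
  unfold T3 G3
  simp only [map_add, map_sum, map_mul, map_sub, sg_C, sg_t3, sg_x3, sg_y3, sg_z3, rename_C, rz, ry,
    mul_add, Finset.mul_sum]
  congr 1
  · congr 1
    · ring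
    · refine Finset.sum_congr rfl fun i _ => ?_
      ring
  · refine Finset.sum_congr rfl fun i _ => ?_
    unfold hh
    rw [map_sub, map_mul, rx, rz]
    cases pr i with
    | none =>
      rw [Option.elim_none, Option.elim_none, map_one, sg_t3]
      ring
    | some j =>
      rw [Option.elim_some, Option.elim_some, rz, sg_z3]
      ring

/-- the permutation of the variables -/
def perm3 : Fin (n + (κ + κ) + 3) → Fin ((n + 1) + ((κ + 1) + (κ + 1))) :=
  Fin.addCases (Fin.addCases (fun i => Fin.castAdd _ i.castSucc)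
    (Fin.addCases (fun i => Fin.natAdd _ (Fin.castAdd _ i.castSucc))
      (fun i => Fin.natAdd _ (Fin.natAdd _ i.castSucc))))
    (fun a => if a = 0 then Fin.castAdd _ (Fin.last n) else
      if a = 1 then Fin.natAdd _ (Fin.castAdd _ (Fin.last κ)) else
        Fin.natAdd _ (Fin.natAdd _ (Fin.last κ)))

theorem perm3_x (i : Fin n) : perm3 κ (Fin.castAdd 3 (Fin.castAdd (κ + κ) i)) =
    Fin.castAdd _ i.castSucc := by
  unfold perm3
  rw [Fin.addCases_left, Fin.addCases_left]

theorem perm3_y (i : Fin κ) : perm3 (n := n) κ (Fin.castAdd 3 (Fin.natAdd n (Fin.castAdd κ i))) =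
    Fin.natAdd _ (Fin.castAdd _ i.castSucc) := by
  unfold perm3
  rw [Fin.addCases_left, Fin.addCases_right, Fin.addCases_left]

theorem perm3_z (i : Fin κ) : perm3 (n := n) κ (Fin.castAdd 3 (Fin.natAdd n (Fin.natAdd κ i))) =
    Fin.natAdd _ (Fin.natAdd _ i.castSucc) := by
  unfold perm3
  rw [Fin.addCases_left, Fin.addCases_right, Fin.addCases_right]

theorem perm3_0 : perm3 (n := n) κ (Fin.natAdd _ 0) = Fin.castAdd _ (Fin.last n) := by
  unfold perm3
  rw [Fin.addCases_right, if_pos rfl]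

theorem perm3_1 : perm3 (n := n) κ (Fin.natAdd _ 1) =
    Fin.natAdd _ (Fin.castAdd _ (Fin.last κ)) := by
  unfold perm3
  rw [Fin.addCases_right, if_neg (by decide), if_pos rfl]

theorem perm3_2 : perm3 (n := n) κ (Fin.natAdd _ 2) =
    Fin.natAdd _ (Fin.natAdd _ (Fin.last κ)) := by
  unfold perm3
  rw [Fin.addCases_right, if_neg (by decide), if_neg (by decide)]

/-- the values of the permutation -/
theorem perm3_val (i : Fin (n + (κ + κ) + 3)) : ((perm3 κ i : Fin _) : ℕ) =
    if (i : ℕ) < n then (i : ℕ) else if (i : ℕ) < n + κ then (i : ℕ) + 1 else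
      if (i : ℕ) < n + (κ + κ) then (i : ℕ) + 2 else if (i : ℕ) = n + (κ + κ) then n else
        if (i : ℕ) = n + (κ + κ) + 1 then n + 1 + κ else n + 1 + (κ + 1 + κ) := by
  refine Fin.addCases (fun i => ?_) (fun a => ?_) i
  · refine Fin.addCases (fun i => ?_) (fun i => ?_) i
    · rw [perm3_x]
      have := i.2
      simp
    · refine Fin.addCases (fun i => ?_) (fun i => ?_) i
      · rw [perm3_y]
        have := i.2
        simp
        omega
      · rw [perm3_z]
        have := i.2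
        simp
        omega
  · fin_cases a
    · show ((perm3 κ (Fin.natAdd (n + (κ + κ)) 0) : Fin _) : ℕ) = _
      rw [perm3_0]
      simp
    · show ((perm3 κ (Fin.natAdd (n + (κ + κ)) 1) : Fin _) : ℕ) = _
      rw [perm3_1]
      simp
      split_ifs <;> omega
    · show ((perm3 κ (Fin.natAdd (n + (κ + κ)) 2) : Fin _) : ℕ) = _
      rw [perm3_2]
      simp
      split_ifs <;> omega

theorem perm3_bij : Function.Bijective (perm3 (n := n) κ) := by
  rw [Fintype.bijective_iff_injective_and_card]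
  refine ⟨fun i j h => ?_, ?_⟩
  · have h1 := congrArg Fin.val h
    rw [perm3_val, perm3_val] at h1
    have hi := i.2
    have hj := j.2
    apply Fin.ext
    split_ifs at h1 <;> omega
  · rw [Fintype.card_fin, Fintype.card_fin]
    omega

/-- the permutation of the variables -/
noncomputable def permE : Fin (n + (κ + κ) + 3) ≃ Fin ((n + 1) + ((κ + 1) + (κ + 1))) :=
  Equiv.ofBijective _ (perm3_bij κ)

theorem tri_T3 : IsTri (n + 1) (κ + 1) (κ + 1) (renameEquiv k (permE κ) (T3 κ c0 c v pr)) := by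
  have e : ∀ q : MvPolynomial (Fin (n + (κ + κ) + 3)) k, renameEquiv k (permE κ) q =
      rename (perm3 κ) q := fun _ => rfl
  rw [e]
  unfold T3 x3 y3 z3 t3
  simp only [map_add, map_sum, map_mul, map_sub, rename_C, rename_X, perm3_x, perm3_y, perm3_z,
    perm3_0, perm3_1, perm3_2]
  refine ((IsTri.mulC (IsTri.mon _ _ _) _).add (IsTri.sum _ _ fun i _ =>
    IsTri.mulC (IsTri.mon _ _ _) _)).add (IsTri.sum _ _ fun i _ => (IsTri.mon _ _ _).sub ?_)
  cases pr i with
  | none =>
    rw [Option.elim_none, rename_X, perm3_2]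
    exact IsTri.mon _ _ _
  | some j =>
    rw [Option.elim_some, rename_X, perm3_z]
    exact IsTri.mon _ _ _

end

/-! ### Isomorphisms -/

section
variable {k : Type} [Field k] [Algebra k ℂ] {K : Type} [Field K] [Algebra k K]

theorem loc_iso {a b : ℕ} (hab : a = b)
    (ψ : MvPolynomial (Fin a) k ≃ₐ[k] MvPolynomial (Fin b) k) {f : MvPolynomial (Fin a) k}
    {x : Fin a → K} {β : Polynomial ℂ} (h : LocB f x β) :
    LocB (ψ f) (fun j => aeval x (ψ.symm (X j))) β := by
  subst hab
  rw [locB_iff] at h ⊢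
  obtain ⟨u, hu, hw⟩ := h
  obtain ⟨ψC, hψC⟩ := Pool.Agent.Y405.MS.bc k ℂ ψ
  refine ⟨ψ u, ?_, ?_⟩
  · have h2 : aeval (fun j => aeval x (ψ.symm (X j))) (ψ u) = aeval x (ψ.symm (ψ u)) := by
      have h3 : (aeval (fun j => aeval x (ψ.symm (X j))) : MvPolynomial (Fin a) k →ₐ[k] K) =
          (aeval x).comp (ψ.symm : MvPolynomial (Fin a) k →ₐ[k] MvPolynomial (Fin a) k) := by
        apply MvPolynomial.algHom_ext
        intro i
        rw [aeval_X]
        rfl
      rw [h3]
      rfl
    rw [h2, AlgEquiv.symm_apply_apply]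
    exact hu
  · have h3 := transfer ψC hw
    simp only [map_smul, map_mul, map_pow, hψC] at h3
    exact h3

omit [Algebra k ℂ] in
theorem zeta_iso [CharZero K] {a b : ℕ} (hab : a = b)
    (ψ : MvPolynomial (Fin a) k ≃ₐ[k] MvPolynomial (Fin b) k) (f : MvPolynomial (Fin a) k)
    (x : Fin a → K) :
    zeta (map (algebraMap k K) (ψ f)) (fun j => aeval x (ψ.symm (X j))) =
      zeta (map (algebraMap k K) f) x := by
  obtain ⟨ψK, hψK⟩ := Pool.Agent.Y405.MS.bc k K ψ
  have hE : CE ({1} : Set (AlgebraicClosure K)) := ce_good good_one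
  rw [← hψK, zeta_eq, zeta_eq]
  refine zeta0_congr ?_
  rw [← zetaG_iso hab ψK _ (constr_pt x) hE, pt_image]
  congr 3
  funext j
  have h1 : ψK (map (algebraMap k K) (ψ.symm (X j))) = X j := by
    rw [hψK, AlgEquiv.apply_symm_apply, map_X]
  rw [← h1, AlgEquiv.symm_apply_apply, aeval_map_algebraMap]

end

end Pool.Agent.J4.H18.TT
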