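import Pool.Agent.J4.H18.TT.Zt
import Pool.Agent.J4.H18.TT.Loc

/-!
# Zeta functions at points
-/

set_option autoImplicit false

namespace Pool.Agent.J4.H18.TT

open MvPolynomial hiding psum
open Pool.Agent.W428.MOT Pool.Agent.Y229.MS
open Pool.Agent.W375.MG (JetG zetaG Good good_one)
open Pool.Agent.J4.H18.TT.DM

variable {K : Type} [Field K]

/-- the point with coordinates in the algebraic closure -/
noncomputable def pt {n : ℕ} (x : Fin n → K) : Pt K (Fin n) :=
  fun i => algebraMap K (AlgebraicClosure K) (x i)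

theorem constr_pt {n : ℕ} (x : Fin n → K) : Constr ({pt x} : Set (Pt K (Fin n))) := by
  have h : ({pt x} : Set (Pt K (Fin n))) = {z | ∀ i, z i = algebraMap K _ (x i)} := by
    ext z
    simp only [Set.mem_singleton_iff, Set.mem_ofPred_eq, funext_iff, pt]
  rw [h]
  exact Constr.all fun i => Constr.eq (IsPF.coord i) (IsPF.const _)

theorem zeta_eq {n : ℕ} (f : MvPolynomial (Fin n) K) (x : Fin n → K) :
    zeta f x = zeta0 f {pt x} {1} := by
  ext d
  rw [zeta, zeta0, zetaG, PowerSeries.coeff_mk, PowerSeries.coeff_mk, PowerSeries.coeff_mk]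
  by_cases hd : d = 0
  · rw [if_pos hd, if_pos hd]
  · rw [if_neg hd, if_neg hd]
    have h3 : Jet f x d = JetG f {pt x} {1} d := by
      ext z
      simp only [Jet, JetG, Set.mem_ofPred_eq, Set.mem_singleton_iff, funext_iff, pt]
      refine and_congr_right fun _ => ?_
      constructor
      · intro h
        refine ⟨fun j hj => ?_, ?_⟩
        · rw [h j hj.le, if_neg (by omega)]
        · rw [h d le_rfl, if_pos rfl]
      · rintro ⟨h1, h2⟩ j hj
        by_cases h : j = d
        · rw [h, h2, if_pos rfl]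
        · rw [h1 j (by omega), if_neg h]
    rw [h3]

/-- constants -/
theorem zeta_of_const [CharZero K] {n : ℕ} (a : K) (x : Fin n → K) :
    zeta (C a : MvPolynomial (Fin n) K) x = 0 := by
  ext d
  rw [zeta, PowerSeries.coeff_mk, map_zero]
  by_cases hd : d = 0
  · rw [if_pos hd]
  · rw [if_neg hd]
    have h1 : Jet (C a : MvPolynomial (Fin n) K) x d = ∅ := by
      rw [Set.eq_empty_iff_forall_notMem]
      rintro z ⟨-, h⟩
      have h2 := h d le_rfl
      rw [if_pos rfl, MvPolynomial.algHom_C, PowerSeries.algebraMap_apply, PowerSeries.coeff_C,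
        if_neg hd] at h2
      exact zero_ne_one h2
    obtain ⟨M₀, hM₀⟩ := Pool.Agent.W417.MT.K0.main K
    rw [h1, ← hM₀, Pool.Agent.W749.MT.χ_empty, map_zero, zero_mul]

/-- points outside of the zero set -/
theorem zeta_of_ne [CharZero K] {n : ℕ} (f : MvPolynomial (Fin n) K) (x : Fin n → K)
    (h : aeval x f ≠ 0) : zeta f x = 0 := by
  ext d
  rw [zeta, PowerSeries.coeff_mk, map_zero]
  by_cases hd : d = 0
  · rw [if_pos hd]
  · rw [if_neg hd]
    have h1 : Jet f x d = ∅ := by
      rw [Set.eq_empty_iff_forall_notMem]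
      rintro z ⟨hz, hc⟩
      have h2 := hc 0 (Nat.zero_le _)
      rw [if_neg (Ne.symm hd), coeff_zero'] at h2
      have h3 : (fun i => z (i, 0)) = fun i => algebraMap K (AlgebraicClosure K) (x i) := funext hz
      have h4 : aeval (fun i => algebraMap K (AlgebraicClosure K) (x i)) f =
          algebraMap K (AlgebraicClosure K) (aeval x f) := aeval_algebraMap_apply _ _ _
      rw [h3, h4, map_eq_zero] at h2
      exact h h2
    obtain ⟨M₀, hM₀⟩ := Pool.Agent.W417.MT.K0.main K
    rw [h1, ← hM₀, Pool.Agent.W749.MT.χ_empty, map_zero, zero_mul]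

/-- isomorphisms -/
theorem zetaG_iso [CharZero K] {a b : ℕ} (hab : a = b)
    (ψ : MvPolynomial (Fin a) K ≃ₐ[K] MvPolynomial (Fin b) K) (g : MvPolynomial (Fin a) K)
    {W : Set (Pt K (Fin a))} (hW : Constr W) {E : Set (AlgebraicClosure K)} (hE : CE E) :
    zetaG (ψ g) {w | (fun i => aeval w (ψ (X i))) ∈ W} E = zetaG g W E := by
  obtain ⟨M₀, hM₀⟩ := Pool.Agent.W417.MT.K0.main K
  ext N
  have h5 : b * N = a * N := by rw [hab]
  rw [zetaG, zetaG, PowerSeries.coeff_mk, PowerSeries.coeff_mk, ← hM₀, ← hM₀,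
    Pool.Agent.Z864.MS.three K _ M₀ ψ g W E hW hE N, h5]

/-- the image of a point -/
theorem pt_image {a b : ℕ} (ψ : MvPolynomial (Fin a) K ≃ₐ[K] MvPolynomial (Fin b) K)
    (x : Fin a → K) : {w : Pt K (Fin b) | (fun i => aeval w (ψ (X i))) ∈ ({pt x} : Set _)} =
      {pt fun j => aeval x (ψ.symm (X j))} := by
  ext w
  simp only [Set.mem_singleton_iff, Set.mem_ofPred_eq]
  have hx : ∀ q : MvPolynomial (Fin a) K, aeval (pt x) q = algebraMap K _ (aeval x q) := fun q =>
    aeval_algebraMap_apply _ _ _
  constructor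
  · intro h
    funext j
    have h1 : aeval (fun i => aeval w (ψ (X i))) (ψ.symm (X j)) = aeval w (ψ (ψ.symm (X j))) :=
      Pool.Agent.Z864.MS.aeval_cmp (ψ : MvPolynomial (Fin a) K →ₐ[K] MvPolynomial (Fin b) K) w _
    rw [AlgEquiv.apply_symm_apply, aeval_X, h, hx] at h1
    exact h1.symm
  · rintro rfl
    funext i
    have h1 : aeval (pt fun j => aeval x (ψ.symm (X j))) (ψ (X i)) =
        algebraMap K (AlgebraicClosure K) (aeval (fun j => aeval x (ψ.symm (X j))) (ψ (X i))) :=
      aeval_algebraMap_apply _ _ _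
    rw [h1]
    have h2 : aeval (fun j => aeval x (ψ.symm (X j))) (ψ (X i)) =
        aeval x (ψ.symm (ψ (X i))) :=
      Pool.Agent.Z864.MS.aeval_cmp
        (ψ.symm : MvPolynomial (Fin b) K →ₐ[K] MvPolynomial (Fin a) K) x _
    rw [h2, AlgEquiv.symm_apply_apply, aeval_X]
    rfl

theorem aeval_image {a b : ℕ} (ψ : MvPolynomial (Fin a) K ≃ₐ[K] MvPolynomial (Fin b) K)
    (x : Fin a → K) (q : MvPolynomial (Fin a) K) :
    aeval (fun j => aeval x (ψ.symm (X j))) (ψ q) = aeval x q := by
  have h2 : aeval (fun j => aeval x (ψ.symm (X j))) (ψ q) = aeval x (ψ.symm (ψ q)) :=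
    Pool.Agent.Z864.MS.aeval_cmp
      (ψ.symm : MvPolynomial (Fin b) K →ₐ[K] MvPolynomial (Fin a) K) x _
  rw [h2, AlgEquiv.symm_apply_apply]

/-- the two forms of `f + ∑ y_i z_i`, with the origins -/
theorem itr_aux {n : ℕ} (f : MvPolynomial (Fin n) K) (x : Fin n → K) (κ : ℕ) :
    ∃ g : Fin (n + 2 * κ) → Fin n ⊕ (Fin κ ⊕ Fin κ), Function.Injective g ∧
      rename g (itr f κ) = rename Sum.inl f +
        ∑ i : Fin κ, X (Sum.inr (Sum.inl i)) * X (Sum.inr (Sum.inr i)) ∧
      W0i {pt x} κ = {pt fun l => Sum.elim x (fun _ => 0) (g l)} := by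
  induction κ with
  | zero =>
    refine ⟨fun i => Sum.inl i, Sum.inl_injective, ?_, rfl⟩
    rw [Finset.univ_eq_empty, Finset.sum_empty, add_zero]
    rfl
  | succ κ ih =>
    obtain ⟨g, hg, hr, hW⟩ := ih
    let s : Fin n ⊕ (Fin κ ⊕ Fin κ) → Fin n ⊕ (Fin (κ + 1) ⊕ Fin (κ + 1)) :=
      Sum.map id (Sum.map Fin.castSucc Fin.castSucc)
    have hs : Function.Injective s :=
      Function.injective_id.sumMap ((Fin.castSucc_injective _).sumMap (Fin.castSucc_injective _))
    have hs1 : ∀ x, s x ≠ Sum.inr (Sum.inl (Fin.last κ)) := by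
      rintro (x | x | x) h
      · simp [s] at h
      · simp only [s, Sum.map_inr, Sum.map_inl, Sum.inr.injEq, Sum.inl.injEq] at h
        exact (Fin.castSucc_lt_last x).ne h
      · simp [s] at h
    have hs2 : ∀ x, s x ≠ Sum.inr (Sum.inr (Fin.last κ)) := by
      rintro (x | x | x) h
      · simp [s] at h
      · simp [s] at h
      · simp only [s, Sum.map_inr, Sum.inr.injEq] at h
        exact (Fin.castSucc_lt_last x).ne h
    let t : Fin 2 → Fin n ⊕ (Fin (κ + 1) ⊕ Fin (κ + 1)) := fun j =>
      if j = 0 then Sum.inr (Sum.inl (Fin.last κ)) else Sum.inr (Sum.inr (Fin.last κ))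
    have ht0 : t 0 = Sum.inr (Sum.inl (Fin.last κ)) := rfl
    have ht1 : t 1 = Sum.inr (Sum.inr (Fin.last κ)) := rfl
    have hst : ∀ x j, s x ≠ t j := by
      intro x j
      fin_cases j
      · exact hs1 x
      · exact hs2 x
    have ht : Function.Injective t := by
      intro i j h
      fin_cases i <;> fin_cases j
      · rfl
      · simp [t] at h
      · simp [t] at h
      · rfl
    let g' : Fin ((n + 2 * κ) + 2) → Fin n ⊕ (Fin (κ + 1) ⊕ Fin (κ + 1)) :=
      Fin.addCases (fun i => s (g i)) t
    have hg1 : ∀ i, g' (Fin.castAdd 2 i) = s (g i) := fun i => Fin.addCases_left i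
    have hg2 : ∀ j, g' (Fin.natAdd _ j) = t j := fun j => Fin.addCases_right j
    have hg' : Function.Injective g' := by
      intro x y
      refine Fin.addCases (fun i => ?_) (fun i => ?_) x
      · refine Fin.addCases (fun j => ?_) (fun j => ?_) y
        · rw [hg1, hg1]
          intro h
          rw [hg (hs h)]
        · rw [hg1, hg2]
          intro h
          exact absurd h (hst _ _)
      · refine Fin.addCases (fun j => ?_) (fun j => ?_) y
        · rw [hg1, hg2]
          intro h
          exact absurd h.symm (hst _ _)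
        · rw [hg2, hg2]
          intro h
          rw [ht h]
    refine ⟨g', hg', ?_, ?_⟩
    · have h2 : rename g' (addyz (itr f κ)) = rename s (rename g (itr f κ)) +
          X (Sum.inr (Sum.inl (Fin.last κ))) * X (Sum.inr (Sum.inr (Fin.last κ))) := by
        unfold addyz
        have h3 : g' ∘ Fin.castAdd 2 = s ∘ g := funext hg1
        rw [map_add, map_mul, rename_X, rename_X, hg2, hg2, ht0, ht1, rename_rename, rename_rename,
          h3]
      refine h2.trans ?_
      rw [hr, map_add, rename_rename, map_sum, Fin.sum_univ_castSucc, ← add_assoc]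
      congr 1
      congr 1
      refine Finset.sum_congr rfl fun i _ => ?_
      rw [map_mul, rename_X, rename_X]
      rfl
    · have hse : ∀ y, Sum.elim x (fun _ => (0 : K)) (s y) = Sum.elim x (fun _ => 0) y := by
        rintro (y | y | y) <;> rfl
      have hte : ∀ j, Sum.elim x (fun _ => (0 : K)) (t j) = 0 := by
        intro j
        fin_cases j <;> rfl
      show W0 (W0i {pt x} κ) = _
      rw [hW]
      ext w
      constructor
      · rintro ⟨h1, h2, h3⟩
        rw [Set.mem_singleton_iff] at h1 ⊢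
        funext l
        refine Fin.addCases (fun i => ?_) (fun j => ?_) l
        · have h4 := congrFun h1 i
          show w (Fin.castAdd 2 i) = algebraMap K _ (Sum.elim x (fun _ => 0) (g' (Fin.castAdd 2 i)))
          rw [hg1, hse]
          exact h4
        · show w (Fin.natAdd _ j) = algebraMap K _ (Sum.elim x (fun _ => 0) (g' (Fin.natAdd _ j)))
          rw [hg2, hte, map_zero]
          fin_cases j
          · exact h2
          · exact h3
      · intro h1
        rw [Set.mem_singleton_iff] at h1
        subst h1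
        refine ⟨?_, ?_, ?_⟩
        · rw [Set.mem_singleton_iff]
          funext i
          show algebraMap K _ (Sum.elim x (fun _ => 0) (g' (Fin.castAdd 2 i))) = _
          rw [hg1, hse]
          rfl
        · show algebraMap K _ (Sum.elim x (fun _ => 0) (g' (Fin.natAdd _ 0))) = _
          rw [hg2, hte, map_zero]
        · show algebraMap K _ (Sum.elim x (fun _ => 0) (g' (Fin.natAdd _ 1))) = _
          rw [hg2, hte, map_zero]

theorem zeta0_congr {a b : ℕ} {f : MvPolynomial (Fin a) K} {g : MvPolynomial (Fin b) K}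
    {V : Set (Pt K (Fin a))} {W : Set (Pt K (Fin b))} {E : Set (AlgebraicClosure K)}
    (h : zetaG f V E = zetaG g W E) : zeta0 f V E = zeta0 g W E := by
  unfold zeta0
  rw [h]

/-- from `itr` to `stabK` -/
theorem zeta_itr [CharZero K] {n : ℕ} (f : MvPolynomial (Fin n) K) (x : Fin n → K) (κ : ℕ)
    {E : Set (AlgebraicClosure K)} (hE : CE E) :
    zetaG (itr f κ) (W0i {pt x} κ) E =
      zetaG (stabK f κ) {pt (Fin.append x fun _ => (0 : K))} E := by
  obtain ⟨g, hg, hr, hW⟩ := itr_aux f x κ
  let h : Fin n ⊕ (Fin κ ⊕ Fin κ) ≃ Fin (n + (κ + κ)) :=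
    (Equiv.sumCongr (Equiv.refl _) finSumFinEquiv).trans finSumFinEquiv
  have hb : Function.Bijective (h ∘ g) := by
    rw [Fintype.bijective_iff_injective_and_card]
    refine ⟨h.injective.comp hg, ?_⟩
    rw [Fintype.card_fin, Fintype.card_fin]
    omega
  set e : Fin (n + 2 * κ) ≃ Fin (n + (κ + κ)) := Equiv.ofBijective _ hb with he
  have h1 : renameEquiv K e (itr f κ) = stabK f κ := by
    show rename (h ∘ g) (Pool.Agent.Y229.MS.itr f κ) = _
    rw [← rename_rename, hr, map_add, rename_rename, map_sum]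
    unfold stabK
    congr 1
    refine Finset.sum_congr rfl fun i _ => ?_
    rw [map_mul, rename_X, rename_X]
    rfl
  have h2 := zetaG_iso (by ring) (renameEquiv K e) (itr f κ) (constr_W0i (constr_pt x) κ) hE
  rw [h1] at h2
  rw [← h2]
  congr 1
  rw [hW, pt_image]
  congr 1
  congr 1
  funext j
  obtain ⟨l, rfl⟩ := e.surjective j
  rw [renameEquiv_symm, renameEquiv_apply, rename_X, Equiv.symm_apply_apply, aeval_X]
  have h3 : ∀ y, Fin.append x (fun _ : Fin (κ + κ) => (0 : K)) (h y) =
      Sum.elim x (fun _ => 0) y := by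
    rintro (y | y)
    · show Fin.append x _ (Fin.castAdd _ y) = _
      rw [Fin.append_left]
      rfl
    · show Fin.append x _ (Fin.natAdd _ _) = _
      rw [Fin.append_right]
      rfl
  exact (h3 (g l)).symm

/-- from `f + ∑ y_i z_i` to the trilinear form -/
theorem zeta_chain {k : Type} [Field k] [Algebra k K] [CharZero K] {n κ : ℕ}
    (f : MvPolynomial (Fin n) k) (x : Fin n → K)
    (ψ : MvPolynomial (Fin (n + (κ + κ))) k ≃ₐ[k] MvPolynomial (Fin (n + (κ + κ))) k) :
    ∃ p : Fin (n + (κ + κ)) → K,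
      (∀ q, aeval p (ψ q) = aeval (Fin.append x fun _ => (0 : K)) q) ∧
      ∀ {r : ℕ} (g : Fin (n + (κ + κ)) → Fin r) (T : MvPolynomial (Fin (n + (κ + κ) + r)) k),
        sg g T = tau k _ r * rename (Fin.castAdd r) (ψ (stabK f κ)) →
        zeta (map (algebraMap k K) T) (Fin.append p fun _ : Fin r => (1 : K)) =
          zeta0 (itr (map (algebraMap k K) f) κ) (W0i {pt x} κ) {1} := by
  obtain ⟨ψK, hψK⟩ := Pool.Agent.Y405.MS.bc k K ψ
  set x' : Fin (n + (κ + κ)) → K := Fin.append x fun _ => (0 : K) with hx'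
  set p : Fin (n + (κ + κ)) → K := fun j => aeval x' (ψK.symm (X j)) with hp
  refine ⟨p, fun q => ?_, fun {r} g T hT => ?_⟩
  · have h1 := aeval_image ψK x' (map (algebraMap k K) q)
    rw [hψK, aeval_map_algebraMap, aeval_map_algebraMap] at h1
    exact h1
  · have hE : CE ({1} : Set (AlgebraicClosure K)) := ce_good good_one
    have e0 : map (algebraMap k K) (stabK f κ) = stabK (map (algebraMap k K) f) κ := by
      unfold stabK
      simp only [map_add, map_sum, map_mul, map_X, map_rename]
    rw [zeta_eq]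
    refine zeta0_congr ?_
    have e1 : ({pt (Fin.append p fun _ : Fin r => (1 : K))} : Set (Pt K _)) = W1 r {pt p} := by
      ext w
      constructor
      · intro h
        rw [Set.mem_singleton_iff] at h
        subst h
        refine ⟨?_, fun a => ?_⟩
        · rw [Set.mem_singleton_iff]
          funext i
          unfold pt
          rw [Fin.append_left]
        · unfold pt
          rw [Fin.append_right, map_one]
      · rintro ⟨h1, h2⟩
        rw [Set.mem_singleton_iff] at h1 ⊢
        funext l
        refine Fin.addCases (fun i => ?_) (fun a => ?_) l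
        · unfold pt
          rw [Fin.append_left]
          exact congrFun h1 i
        · unfold pt
          rw [Fin.append_right, map_one]
          exact h2 a
    rw [e1, zeta_hom g (map_hom (K := K) hT) (constr_pt p) hE, ← hψK, e0, hp, ← pt_image,
      zetaG_iso rfl ψK _ (constr_pt x') hE, zeta_itr _ _ _ hE]

end Pool.Agent.J4.H18.TT
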