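import Pool.Agent.J4.H18.TT.Hom
import Pool.Agent.J4.H18.TT.Pt
import Pool.Agent.Z864.MS.Three
import Pool.Agent.W417.MT.Free

/-!
# The motivic zeta function of the homogenisation
-/

set_option autoImplicit false

namespace Pool.Agent.J4.H18.TT

open MvPolynomial hiding psum
open Pool.Agent.W428.MOT Pool.Agent.Y229.MS
open Pool.Agent.W375.MG (JetG zetaG Good)
open Pool.Agent.W375.MT (coeff_arc coeff_aeval_congr)
open Pool.Agent.Z864.MS (Tm isPF_Tm aeval_cmp coeff_Tm constr_JetE)
open Pool.Agent.J4.H18.TT.DM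

variable {K : Type} [Field K] {N r : ℕ}

/-- the origins `(w, 1, …, 1)` -/
def W1 (r : ℕ) (W : Set (Pt K (Fin N))) : Set (Pt K (Fin (N + r))) :=
  {w | (fun i => w (Fin.castAdd r i)) ∈ W ∧ ∀ a : Fin r, w (Fin.natAdd N a) = 1}

theorem constr_W1 {W : Set (Pt K (Fin N))} (hW : Constr W) : Constr (W1 r W) :=
  (hW.preimage (fun (w : Pt K (Fin (N + r))) i => w (Fin.castAdd r i)) fun _ => IsPF.coord _).and
    (Constr.all fun _ => Constr.eq (IsPF.coord _) IsPF.one)

/-- multiplication by a series with constant term one does not change the leading term -/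
theorem lead_iff {A : Type} [CommRing A] (U P : PowerSeries A) (hU : PowerSeries.coeff 0 U = 1) (m : ℕ)
    (E : Set A) :
    ((∀ j < m, PowerSeries.coeff j (U * P) = 0) ∧ PowerSeries.coeff m (U * P) ∈ E) ↔
      ((∀ j < m, PowerSeries.coeff j P = 0) ∧ PowerSeries.coeff m P ∈ E) := by
  have h1 : ∀ j, (∀ i < j, PowerSeries.coeff i P = 0) →
      PowerSeries.coeff j (U * P) = PowerSeries.coeff j P := by
    intro j hj
    rw [PowerSeries.coeff_mul, Finset.sum_eq_single (0, j)]
    · rw [hU, one_mul]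
    · rintro ⟨a, b⟩ hab hne
      rw [Finset.HasAntidiagonal.mem_antidiagonal] at hab
      simp only at hab ⊢
      rw [hj b ?_, mul_zero]
      rcases Nat.eq_zero_or_pos a with h | h
      · exact absurd (by rw [Prod.mk.injEq]; omega) hne
      · omega
    · intro h
      exact absurd (Finset.HasAntidiagonal.mem_antidiagonal.2 (zero_add j)) h
  have h2 : (∀ j < m, PowerSeries.coeff j (U * P) = 0) ↔ ∀ j < m, PowerSeries.coeff j P = 0 := by
    constructor
    · intro h j
      induction j using Nat.strong_induction_on with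
      | _ j ih =>
        intro hj
        rw [← h1 j fun i hi => ih i hi (by omega)]
        exact h j hj
    · intro h j hj
      rw [h1 j fun i hi => h i (by omega)]
      exact h j hj
  rw [h2]
  refine and_congr_right fun h => ?_
  rw [h1 m h]

/-- the inverse substitution up to order `m` -/
noncomputable def sgi (g : Fin N → Fin r) (m : ℕ) :
    MvPolynomial (Fin (N + r)) K →ₐ[K] MvPolynomial (Fin (N + r)) K :=
  aeval (Fin.addCases (fun i => X (Fin.castAdd r i) *
    ∑ j ∈ Finset.range (m + 1), (1 - X (Fin.natAdd N (g i))) ^ j) (fun a => X (Fin.natAdd N a)))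

theorem sgi_l (g : Fin N → Fin r) (m : ℕ) (i : Fin N) : sgi (K := K) g m (X (Fin.castAdd r i)) =
    X (Fin.castAdd r i) * ∑ j ∈ Finset.range (m + 1), (1 - X (Fin.natAdd N (g i))) ^ j := by
  unfold sgi
  rw [aeval_X, Fin.addCases_left]

theorem sgi_r (g : Fin N → Fin r) (m : ℕ) (a : Fin r) : sgi (K := K) g m (X (Fin.natAdd N a)) =
    X (Fin.natAdd N a) := by
  unfold sgi
  rw [aeval_X, Fin.addCases_right]

theorem geom {A : Type} [CommRing A] (x : A) (m : ℕ) :
    x * ∑ j ∈ Finset.range (m + 1), (1 - x) ^ j = 1 - (1 - x) ^ (m + 1) := by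
  have h := mul_neg_geom_sum (1 - x) (m + 1)
  rw [sub_sub_cancel] at h
  exact h

theorem coeff_err {A : Type} [CommRing A] (x y : PowerSeries A) (hx : PowerSeries.coeff 0 x = 1)
    (m k : ℕ) (hk : k ≤ m) :
    PowerSeries.coeff k (y * (1 - (1 - x) ^ (m + 1))) = PowerSeries.coeff k y := by
  have h1 : PowerSeries.X ∣ 1 - x := by
    rw [PowerSeries.X_dvd_iff, map_sub, map_one, ← PowerSeries.coeff_zero_eq_constantCoeff_apply,
      hx, sub_self]
  have h2 : (PowerSeries.X : PowerSeries A) ^ (m + 1) ∣ y * (1 - x) ^ (m + 1) :=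
    Dvd.dvd.mul_left (pow_dvd_pow_of_dvd h1 _) _
  rw [mul_sub, mul_one, map_sub, (PowerSeries.X_pow_dvd_iff.1 h2) k (by omega), sub_zero]

variable {R : Type} [CommRing R]

/-- the change of coordinates -/
theorem chi_sg (M : Meas K R) (g : Fin N → Fin r) {G : MvPolynomial (Fin N) K}
    {T : MvPolynomial (Fin (N + r)) K}
    (hT : sg g T = tau K N r * rename (Fin.castAdd r) G) {W : Set (Pt K (Fin N))}
    (hW : Constr W) {E : Set (AlgebraicClosure K)} (hE : CE E) (m : ℕ) :
    M.χ _ (JetG (rename (Fin.castAdd r) G) (W1 r W) E m) = M.χ _ (JetG T (W1 r W) E m) := by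
  have h0 : ∀ (z : Pt K (Fin (N + r) × Fin (m + 1))) (P : MvPolynomial (Fin (N + r)) K),
      PowerSeries.coeff 0 (aeval (arc z) P) = aeval (fun i => z (i, 0)) P := coeff_zero'
  -- the series with constant term one
  have hU : ∀ z : Pt K (Fin (N + r) × Fin (m + 1)), (∀ a : Fin r, z (Fin.natAdd N a, 0) = 1) →
      PowerSeries.coeff 0 (aeval (arc z) (tau K N r)) = 1 := by
    intro z hz
    rw [h0]
    unfold tau
    rw [map_prod]
    refine Finset.prod_eq_one fun a _ => ?_
    rw [aeval_X]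
    exact hz a
  have hor : ∀ (z : Pt K (Fin (N + r) × Fin (m + 1))), (∀ a : Fin r, z (Fin.natAdd N a, 0) = 1) →
      ∀ i, Tm (sg g) m z (i, 0) = z (i, 0) := by
    intro z hz i
    show PowerSeries.coeff ((0 : Fin (m + 1)) : ℕ) (aeval (arc z) (sg g (X i))) = _
    rw [Fin.val_zero, h0]
    refine Fin.addCases (fun i => ?_) (fun a => ?_) i
    · rw [sg_l, map_mul, aeval_X, aeval_X, hz, mul_one]
    · rw [sg_r, aeval_X]
  have hoi : ∀ (z : Pt K (Fin (N + r) × Fin (m + 1))), (∀ a : Fin r, z (Fin.natAdd N a, 0) = 1) →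
      ∀ i, Tm (sgi g m) m z (i, 0) = z (i, 0) := by
    intro z hz i
    show PowerSeries.coeff ((0 : Fin (m + 1)) : ℕ) (aeval (arc z) (sgi g m (X i))) = _
    rw [Fin.val_zero, h0]
    refine Fin.addCases (fun i => ?_) (fun a => ?_) i
    · rw [sgi_l, map_mul, aeval_X, map_sum, Finset.sum_range_succ']
      have h1 : ∀ j ∈ Finset.range m, aeval (fun i => z (i, 0))
          ((1 - X (Fin.natAdd N (g i)) : MvPolynomial (Fin (N + r)) K) ^ (j + 1)) = 0 := by
        intro j _
        rw [map_pow, map_sub, map_one, aeval_X, hz, sub_self, zero_pow (Nat.succ_ne_zero j)]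
      rw [Finset.sum_eq_zero h1, pow_zero, map_one, zero_add, mul_one]
    · rw [sgi_r, aeval_X]
  have hinv1 : ∀ (z : Pt K (Fin (N + r) × Fin (m + 1))), (∀ a : Fin r, z (Fin.natAdd N a, 0) = 1) →
      Tm (sgi g m) m (Tm (sg g) m z) = z := by
    intro z hz
    funext p
    obtain ⟨i, k⟩ := p
    show PowerSeries.coeff (k : ℕ) (aeval (arc (Tm (sg g) m z)) (sgi g m (X i))) = z (i, k)
    rw [coeff_Tm (sg g) z _ _ (by omega)]
    refine Fin.addCases (fun i => ?_) (fun a => ?_) i
    · rw [sgi_l, map_mul (sg g), sg_l, map_sum (sg g)]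
      simp only [map_pow, map_sub, map_one, sg_r]
      rw [mul_assoc, geom, map_mul, map_sub, map_one, map_pow, map_sub, map_one, aeval_X, aeval_X,
        coeff_err _ _ ?_ m _ (by omega), coeff_arc _ _ _ k.2]
      rw [coeff_arc _ _ _ (Nat.succ_pos m)]
      exact hz _
    · rw [sgi_r, sg_r, aeval_X, coeff_arc _ _ _ k.2]
  have hinv2 : ∀ (z : Pt K (Fin (N + r) × Fin (m + 1))), (∀ a : Fin r, z (Fin.natAdd N a, 0) = 1) →
      Tm (sg g) m (Tm (sgi g m) m z) = z := by
    intro z hz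
    funext p
    obtain ⟨i, k⟩ := p
    show PowerSeries.coeff (k : ℕ) (aeval (arc (Tm (sgi g m) m z)) (sg g (X i))) = z (i, k)
    rw [coeff_Tm (sgi g m) z _ _ (by omega)]
    refine Fin.addCases (fun i => ?_) (fun a => ?_) i
    · rw [sg_l, map_mul (sgi g m), sgi_l, sgi_r, mul_assoc, mul_comm (∑ j ∈ _, _), geom, map_mul,
        map_sub, map_one, map_pow, map_sub, map_one, aeval_X, aeval_X,
        coeff_err _ _ ?_ m _ (by omega), coeff_arc _ _ _ k.2]
      rw [coeff_arc _ _ _ (Nat.succ_pos m)]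
      exact hz _
    · rw [sg_r, sgi_r, aeval_X, coeff_arc _ _ _ k.2]
  have hcond : ∀ z : Pt K (Fin (N + r) × Fin (m + 1)), (∀ a : Fin r, z (Fin.natAdd N a, 0) = 1) →
      (((∀ j < m, PowerSeries.coeff j (aeval (arc (Tm (sg g) m z)) T) = 0) ∧
        PowerSeries.coeff m (aeval (arc (Tm (sg g) m z)) T) ∈ E) ↔
      ((∀ j < m, PowerSeries.coeff j (aeval (arc z) (rename (Fin.castAdd r) G)) = 0) ∧
        PowerSeries.coeff m (aeval (arc z) (rename (Fin.castAdd r) G)) ∈ E)) := by
    intro z hz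
    rw [← lead_iff (aeval (arc z) (tau K N r)) (aeval (arc z) (rename (Fin.castAdd r) G))
      (hU z hz) m E, ← map_mul, ← hT, coeff_Tm _ _ _ m le_rfl]
    refine and_congr_left fun _ => forall_congr' fun j => forall_congr' fun hj => ?_
    rw [coeff_Tm _ _ _ j hj.le]
  refine M.iso _ _ (constr_JetE _ (constr_W1 hW) hE m) (constr_JetE _ (constr_W1 hW) hE m)
    (Tm (sg g) m) (Tm (sgi g m) m) (regularOn_poly (fun p => isPF_Tm _ p) _)
    (regularOn_poly (fun p => isPF_Tm _ p) _) ?_ ?_ (fun z hz => hinv1 z hz.1.2)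
    (fun z hz => hinv2 z hz.1.2)
  · rintro z ⟨h1, h2⟩
    refine ⟨?_, (hcond z h1.2).2 h2⟩
    have e : (fun i => Tm (sg g) m z (i, 0)) = fun i => z (i, 0) := funext (hor z h1.2)
    rw [e]
    exact h1
  · rintro z ⟨h1, h2⟩
    have e : (fun i => Tm (sgi g m) m z (i, 0)) = fun i => z (i, 0) := funext (hoi z h1.2)
    have hz' : ∀ a : Fin r, Tm (sgi g m) m z (Fin.natAdd N a, 0) = 1 := fun a => by
      rw [hoi z h1.2]
      exact h1.2 a
    refine ⟨?_, (hcond _ hz').1 ?_⟩
    · rw [e]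
      exact h1
    · rw [hinv2 z h1.2]
      exact h2

/-- the variables which do not occur -/
theorem chi_ren (M : Meas K R) (G : MvPolynomial (Fin N) K) {W : Set (Pt K (Fin N))}
    (hW : Constr W) {E : Set (AlgebraicClosure K)} (hE : CE E) (m : ℕ) :
    M.χ _ (JetG (rename (Fin.castAdd r) G) (W1 r W) E m) =
      M.χ _ (JetG G W E m) * M.L ^ (r * m) := by
  classical
  set F1 : Finset (Fin (N + r) × Fin (m + 1)) :=
    (Finset.univ : Finset (Fin r × Fin m)).image (fun q => (Fin.natAdd N q.1, q.2.succ)) with hF1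
  have hcard : F1.card = r * m := by
    rw [hF1, Finset.card_image_of_injective, Finset.card_univ, Fintype.card_prod, Fintype.card_fin,
      Fintype.card_fin]
    rintro ⟨a, j⟩ ⟨a', j'⟩ h
    simp only [Prod.mk.injEq] at h
    rw [Prod.mk.injEq]
    exact ⟨Fin.natAdd_injective _ _ h.1, Fin.succ_injective _ h.2⟩
  have hn0 : ∀ i, (i, (0 : Fin (m + 1))) ∉ F1 := by
    intro i hi
    rw [hF1, Finset.mem_image] at hi
    obtain ⟨q, -, hq⟩ := hi
    exact Fin.succ_ne_zero _ (Prod.mk.inj hq).2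
  have hnl : ∀ (i : Fin N) j, (Fin.castAdd r i, j) ∉ F1 := by
    intro i j hi
    rw [hF1, Finset.mem_image] at hi
    obtain ⟨q, -, hq⟩ := hi
    have h1 := congrArg Fin.val (Prod.mk.inj hq).1
    simp at h1
    omega
  have hmem : ∀ (a : Fin r) (j : Fin m), (Fin.natAdd N a, j.succ) ∈ F1 := fun a j =>
    Finset.mem_image.2 ⟨(a, j), Finset.mem_univ _, rfl⟩
  have hae : ∀ z : Pt K (Fin (N + r) × Fin (m + 1)),
      aeval (arc z) (rename (Fin.castAdd r) G) =
        aeval (arc (fun p : Fin N × Fin (m + 1) => z (Fin.castAdd r p.1, p.2))) G := by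
    intro z
    rw [aeval_rename]
    rfl
  set S := JetG (rename (Fin.castAdd r) G) (W1 r W) E m with hS
  have cS : Constr S := constr_JetE _ (constr_W1 hW) hE m
  have h1 := Pool.Agent.W417.MT.Free.free_one M F1 (fun _ => 0) S cS (by
    rintro z w h ⟨⟨h2, h3⟩, h4⟩
    have e1 : (fun p : Fin N × Fin (m + 1) => w (Fin.castAdd r p.1, p.2)) =
        fun p => z (Fin.castAdd r p.1, p.2) := by
      funext p
      exact h _ (hnl _ _)
    refine ⟨⟨?_, fun a => ?_⟩, ?_⟩
    · have e2 : (fun i => w (Fin.castAdd r i, 0)) = fun i => z (Fin.castAdd r i, 0) := by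
        funext i
        exact h _ (hn0 _)
      show (fun i => w (Fin.castAdd r i, 0)) ∈ W
      rw [e2]
      exact h2
    · show w (Fin.natAdd N a, 0) = 1
      rw [h _ (hn0 _)]
      exact h3 a
    · rw [hae w, e1, ← hae z]
      exact h4)
  rw [h1, hcard]
  congr 1
  have cF : Constr {z : Pt K (Fin (N + r) × Fin (m + 1)) |
      ∀ i ∈ F1, z i = algebraMap K _ ((fun _ => 0 : Fin (N + r) × Fin (m + 1) → K) i)} :=
    Pool.Agent.W417.MT.Free.constr_eqs F1 _
  refine M.iso _ _ (cS.and cF) (constr_JetE _ hW hE m)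
    (fun z p => z (Fin.castAdd r p.1, p.2))
    (fun z p => Fin.addCases (fun i => z (i, p.2)) (fun _ => if p.2 = 0 then 1 else 0) p.1)
    (regularOn_poly (fun p => IsPF.coord _) _) (regularOn_poly ?_ _) ?_ ?_ ?_ ?_
  · rintro ⟨i, j⟩
    refine Fin.addCases (fun i => ?_) (fun a => ?_) i
    · simp only [Fin.addCases_left]
      exact IsPF.coord _
    · simp only [Fin.addCases_right]
      by_cases h : j = 0
      · simp only [h, if_true]
        exact IsPF.one
      · simp only [h, if_false]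
        exact IsPF.zero
  · rintro z ⟨⟨⟨h2, h3⟩, h4⟩, -⟩
    rw [hae] at h4
    exact ⟨h2, h4⟩
  · rintro z ⟨h2, h4⟩
    refine ⟨⟨⟨?_, fun a => ?_⟩, ?_⟩, ?_⟩
    · simp only [Fin.addCases_left]
      exact h2
    · simp only [Fin.addCases_right, if_true]
    · rw [hae]
      simp only [Fin.addCases_left]
      exact h4
    · rintro ⟨i, j⟩ hi
      rw [hF1, Finset.mem_image] at hi
      obtain ⟨q, -, hq⟩ := hi
      rw [← hq]
      simp only [Fin.addCases_right, if_neg (Fin.succ_ne_zero _), map_zero]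
  · rintro z ⟨⟨⟨h2, h3⟩, h4⟩, h5⟩
    funext p
    obtain ⟨i, j⟩ := p
    refine Fin.addCases (fun i => ?_) (fun a => ?_) i
    · simp only [Fin.addCases_left]
    · simp only [Fin.addCases_right]
      rcases Fin.eq_zero_or_eq_succ j with h | ⟨j', h⟩
      · rw [h, if_pos rfl]
        exact (h3 a).symm
      · rw [h, if_neg (Fin.succ_ne_zero _)]
        have := h5 _ (hmem a j')
        rw [this, map_zero]
  · rintro z ⟨h2, h4⟩
    funext p
    simp only [Fin.addCases_left]

theorem chi_hom (M : Meas K R) (g : Fin N → Fin r) {G : MvPolynomial (Fin N) K}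
    {T : MvPolynomial (Fin (N + r)) K}
    (hT : sg g T = tau K N r * rename (Fin.castAdd r) G) {W : Set (Pt K (Fin N))}
    (hW : Constr W) {E : Set (AlgebraicClosure K)} (hE : CE E) (m : ℕ) :
    M.χ _ (JetG T (W1 r W) E m) = M.χ _ (JetG G W E m) * M.L ^ (r * m) := by
  rw [← chi_sg M g hT hW hE m, chi_ren M G hW hE m]

/-- **The zeta function of the homogenisation at the points `(p, 1, …, 1)`.** -/
theorem zeta_hom [CharZero K] (g : Fin N → Fin r) {G : MvPolynomial (Fin N) K}
    {T : MvPolynomial (Fin (N + r)) K}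
    (hT : sg g T = tau K N r * rename (Fin.castAdd r) G) {W : Set (Pt K (Fin N))}
    (hW : Constr W) {E : Set (AlgebraicClosure K)} (hE : CE E) :
    zetaG T (W1 r W) E = zetaG G W E := by
  obtain ⟨M₀, hM₀⟩ := Pool.Agent.W417.MT.K0.main K
  ext m
  have h1 := chi_hom M₀ g hT hW hE m
  have hL := Pool.Agent.W63.MTFin.L_mul hM₀
  rw [zetaG, zetaG, PowerSeries.coeff_mk, PowerSeries.coeff_mk, ← hM₀, ← hM₀, h1, map_mul, map_pow]
  have h2 : (((Lu K) ^ (-(((N + r) * m : ℕ) : ℤ)) : (MK K)ˣ) : MK K) =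
      (((Lu K)⁻¹ : (MK K)ˣ) : MK K) ^ (r * m) *
        (((Lu K) ^ (-((N * m : ℕ) : ℤ)) : (MK K)ˣ) : MK K) := by
    rw [zpow_neg, zpow_natCast, zpow_neg, zpow_natCast, ← Units.val_pow_eq_pow_val,
      ← Units.val_mul, inv_pow, ← mul_inv, ← pow_add]
    congr 3
    ring
  rw [h2]
  have h3 : algebraMap (K0 K) (MK K) M₀.L ^ (r * m) * (((Lu K)⁻¹ : (MK K)ˣ) : MK K) ^ (r * m) =
      1 := by
    rw [← mul_pow]
    have h4 : algebraMap (K0 K) (MK K) M₀.L * (((Lu K)⁻¹ : (MK K)ˣ) : MK K) = 1 := hL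
    rw [h4, one_pow]
  linear_combination (algebraMap (K0 K) (MK K) (M₀.χ _ (JetG G W E m)) *
    (((Lu K) ^ (-((N * m : ℕ) : ℤ)) : (MK K)ˣ) : MK K)) * h3

end Pool.Agent.J4.H18.TT
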